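import Mathlib
import Pool.Agent.R674.SI.Prim

/-!
# Soluble transitive groups of prime degree
-/

set_option autoImplicit false

namespace Pool.Agent.N61.SG

open Equiv Finset MulAction

variable {p : ℕ} [Fact p.Prime]

/-- affine permutations of `ZMod p` -/
def IsAff (h : Perm (ZMod p)) : Prop := ∃ a b : ZMod p, ∀ x, h x = a * x + b

/-- the translation by one -/
def tr : Perm (ZMod p) := Equiv.addRight 1

theorem tr_apply (x : ZMod p) : tr x = x + 1 := rfl

theorem aff_of_step {u : ZMod p → ZMod p} {c : ZMod p} (h : ∀ x, u (x + 1) = u x + c)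
    (x : ZMod p) : u x = c * x + u 0 := by
  obtain ⟨n, rfl⟩ := ZMod.natCast_zmod_surjective x
  induction n with
  | zero => simp
  | succ n ih =>
    push_cast
    rw [h, ih]
    ring

theorem exists_affine (H : Subgroup (Perm (ZMod p))) [Group.IsSolvable H]
    (ht : ∀ x y : ZMod p, ∃ h ∈ H, h x = y) :
    ∃ φ : Perm (ZMod p), ∀ h ∈ H, IsAff (φ⁻¹ * h * φ) := by
  classical
  have hp : p.Prime := Fact.out
  have : IsPretransitive H (ZMod p) := ⟨fun x y => by
    obtain ⟨h, hh, hxy⟩ := ht x y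
    exact ⟨⟨h, hh⟩, hxy⟩⟩
  have hpc : Nat.card (ZMod p) = p := by simp
  have : IsPreprimitive H (ZMod p) := IsPreprimitive.of_prime_card (by rw [hpc]; exact hp)
  have : Nontrivial (ZMod p) := inferInstance
  have : Finite (ZMod p) := inferInstance
  obtain ⟨V, h1, h2, h3, h4⟩ := Pool.Agent.R674.SI.exists_regular H (ZMod p)
  have hcV : Nat.card V = p := by
    rw [Pool.Agent.R674.SI.card_V (0 : ZMod p) h3 h4, hpc]
  obtain ⟨v, hvV, hv0⟩ := h3 0 1
  have hv1 : v ≠ 1 := by
    rintro rfl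
    rw [one_smul] at hv0
    exact zero_ne_one hv0
  have hvp : v ^ p = 1 := by
    have h5 : (⟨v, hvV⟩ : V) ^ Nat.card V = 1 := pow_card_eq_one'
    have h6 : v ^ Nat.card V = 1 := congrArg Subtype.val h5
    rwa [hcV] at h6
  have hord : orderOf v = p := orderOf_eq_prime hvp hv1
  have hgen : ∀ w ∈ V, ∃ k : ℕ, w = v ^ k := by
    intro w hw
    have : Fact (Nat.card V).Prime := ⟨by rw [hcV]; exact hp⟩
    have h5 : (⟨w, hw⟩ : V) ∈ Subgroup.zpowers (⟨v, hvV⟩ : V) :=
      mem_zpowers_of_prime_card hcV (fun h => hv1 (congrArg Subtype.val h))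
    obtain ⟨k, hk⟩ := mem_powers_iff_mem_zpowers.2 h5
    exact ⟨k, (congrArg Subtype.val hk).symm⟩
  -- the labelling
  let φ0 : ZMod p → ZMod p := fun i => (v ^ i.val) • (0 : ZMod p)
  have hinj : Function.Injective φ0 := by
    intro i j hij
    have hij' : (v ^ i.val) • (0 : ZMod p) = (v ^ j.val) • (0 : ZMod p) := hij
    have h5 : ((v ^ j.val)⁻¹ * v ^ i.val) • (0 : ZMod p) = 0 := by
      rw [mul_smul, hij', inv_smul_smul]
    have h6 := h4 _ (V.mul_mem (V.inv_mem (V.pow_mem hvV _)) (V.pow_mem hvV _)) _ h5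
    have h7 : v ^ j.val = v ^ i.val := inv_mul_eq_one.1 h6
    rw [pow_inj_mod, hord, Nat.mod_eq_of_lt (ZMod.val_lt _), Nat.mod_eq_of_lt (ZMod.val_lt _)] at h7
    exact (ZMod.val_injective p h7).symm
  let φ : Perm (ZMod p) := Equiv.ofBijective φ0 (Finite.injective_iff_bijective.1 hinj)
  have hφ : ∀ i, φ i = (v ^ i.val) • (0 : ZMod p) := fun i => rfl
  have hφn : ∀ n : ℕ, φ (n : ZMod p) = (v ^ n) • (0 : ZMod p) := by
    intro n
    rw [hφ, ZMod.val_natCast]
    congr 1
    rw [pow_inj_mod, hord, Nat.mod_mod]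
  have hstep : ∀ (k : ℕ) (i : ZMod p), (v ^ k) • φ i = φ (i + k) := by
    intro k i
    obtain ⟨n, rfl⟩ := ZMod.natCast_zmod_surjective i
    rw [← Nat.cast_add, hφn, hφn, ← mul_smul, ← pow_add, add_comm]
  refine ⟨φ, fun h hh => ?_⟩
  obtain ⟨k, hk⟩ := hgen _ (h1.conj_mem v hvV ⟨h, hh⟩)
  refine ⟨(k : ZMod p), (φ⁻¹ * h * φ) 0, fun x => ?_⟩
  refine aff_of_step (u := fun x => (φ⁻¹ * h * φ) x) (c := (k : ZMod p)) ?_ x
  intro x
  have h5 : (⟨h, hh⟩ : H) * v = v ^ k * ⟨h, hh⟩ := by
    rw [← hk, inv_mul_cancel_right]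
  have h6 : h (φ (x + 1)) = (v ^ k) • h (φ x) := by
    have e1 : φ (x + 1) = v • φ x := by
      have := hstep 1 x
      rw [pow_one, Nat.cast_one] at this
      exact this.symm
    rw [e1]
    have e2 : (⟨h, hh⟩ * v : H) • φ x = (v ^ k * ⟨h, hh⟩ : H) • φ x := by rw [h5]
    rw [mul_smul, mul_smul] at e2
    exact e2
  change φ⁻¹ (h (φ (x + 1))) = φ⁻¹ (h (φ x)) + k
  rw [h6]
  have h7 : (v ^ k) • h (φ x) = φ (φ⁻¹ (h (φ x)) + k) := by
    rw [← hstep]
    congr 1
    exact (Equiv.apply_symm_apply φ (h (φ x))).symm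
  rw [h7]
  exact Equiv.symm_apply_apply φ _

/-- a soluble group which contains the translation consists of affine maps -/
theorem affine_of_tr (H : Subgroup (Perm (ZMod p))) [Group.IsSolvable H]
    (ht : tr ∈ H) (h : Perm (ZMod p)) (hh : h ∈ H) : IsAff h := by
  have hp : p.Prime := Fact.out
  have htr : ∀ x y : ZMod p, ∃ h ∈ H, h x = y := by
    intro x y
    have key : ∀ n : ℕ, ((tr : Perm (ZMod p)) ^ n) x = x + n := by
      intro n
      induction n with
      | zero => simp
      | succ n ih =>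
        rw [pow_succ', Perm.mul_apply, ih, tr_apply]
        push_cast
        ring
    obtain ⟨n, hn⟩ := ZMod.natCast_zmod_surjective (y - x)
    exact ⟨tr ^ n, H.pow_mem ht n, by rw [key, hn]; ring⟩
  obtain ⟨φ, hφ⟩ := exists_affine H htr
  obtain ⟨a, b, hab⟩ := hφ tr ht
  obtain ⟨c, d, hcd⟩ := hφ h hh
  -- `tr` has no fixed point
  have ha : a = 1 := by
    by_contra ha
    have h1 : 1 - a ≠ 0 := sub_ne_zero.2 (Ne.symm ha)
    have h2 : (φ⁻¹ * tr * φ : Perm (ZMod p)) (b / (1 - a)) = b / (1 - a) := by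
      rw [hab]
      field_simp
      ring
    have h3 : tr (φ (b / (1 - a))) = φ (b / (1 - a)) := by
      have := congrArg φ h2
      rw [Perm.mul_apply, Perm.mul_apply] at this
      exact (Equiv.apply_symm_apply φ _).symm.trans this
    rw [tr_apply] at h3
    exact one_ne_zero (left_eq_add.1 h3.symm)
  subst ha
  -- conjugate of `tr` by `h`
  have h4 : ∀ x, tr (φ x) = φ (x + b) := by
    intro x
    have := hab x
    rw [one_mul] at this
    rw [← this]
    exact (Equiv.apply_symm_apply φ _).symm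
  have h5 : ∀ x, h (φ x) = φ (c * x + d) := by
    intro x
    rw [← hcd x]
    exact (Equiv.apply_symm_apply φ _).symm
  have h6 : ∀ (n : ℕ) (x : ZMod p), ((tr : Perm (ZMod p)) ^ n) (φ x) = φ (x + n * b) := by
    intro n
    induction n with
    | zero => intro x; simp
    | succ n ih =>
      intro x
      rw [pow_succ', Perm.mul_apply, ih, h4]
      push_cast
      congr 1
      ring
  have key : ∀ (n : ℕ) (x : ZMod p), ((tr : Perm (ZMod p)) ^ n) x = x + n := by
    intro n x
    induction n with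
    | zero => simp
    | succ n ih =>
      rw [pow_succ', Perm.mul_apply, ih, tr_apply]
      push_cast
      ring
  refine ⟨c, h 0, fun x => aff_of_step (u := fun x => h x) (c := c) ?_ x⟩
  intro x
  obtain ⟨y, rfl⟩ := φ.surjective x
  change h (φ y + 1) = h (φ y) + c
  rw [← tr_apply, h4, h5, h5, ← ZMod.natCast_zmod_val c, ← key c.val, h6]
  congr 1
  rw [ZMod.natCast_zmod_val]
  ring

end Pool.Agent.N61.SG
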