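import Mathlib
import Pool.Agent.R674.SI.Prim

/-!
# Block systems of soluble groups fixing a point and transitive on the other points
-/

set_option autoImplicit false

namespace Pool.Agent.N61.SG

open Equiv Finset

variable {Ω : Type} [Fintype Ω] [DecidableEq Ω]

/-- `H` fixes `α` and is transitive on the other points -/
def TransOff (H : Subgroup (Perm Ω)) (α : Ω) : Prop :=
  (∀ h ∈ H, h α = α) ∧ ∀ x y : Ω, x ≠ α → y ≠ α → ∃ h ∈ H, h x = y

/-- a normal subgroup with orbits of size strictly between `1` and `|Ω| - 1` -/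
theorem exists_normal (H : Subgroup (Perm Ω)) [Group.IsSolvable H] (α : Ω) (hα : TransOff H α)
    (h4 : Fintype.card Ω % 4 = 3) (h7 : 3 < Fintype.card Ω) :
    ∃ W : Subgroup H, W.Normal ∧ (∃ w ∈ W, ∃ x : Ω, (w : Perm Ω) x ≠ x) ∧
      ¬ ∀ x y : Ω, x ≠ α → y ≠ α → ∃ w ∈ W, (w : Perm Ω) x = y := by
  classical
  -- `H` is nontrivial
  obtain ⟨x₀, hx₀⟩ : ∃ x : Ω, x ≠ α := by
    by_contra hc
    push Not at hc
    have : Fintype.card Ω ≤ 1 := Fintype.card_le_one_iff.2 (fun a b => by rw [hc a, hc b])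
    omega
  obtain ⟨y₀, hy₀, hxy⟩ : ∃ y : Ω, y ≠ α ∧ y ≠ x₀ := by
    by_contra hc
    push Not at hc
    have h1 : (univ : Finset Ω) ⊆ {α, x₀} := by
      intro y _
      by_cases hy : y = α
      · simp [hy]
      · simp [hc y hy]
    have h2 := card_le_card h1
    rw [card_univ] at h2
    have h3 := card_le_two (a := α) (b := x₀)
    omega
  have : Nontrivial H := by
    obtain ⟨h, hh, hx⟩ := hα.2 x₀ y₀ hx₀ hy₀
    refine ⟨⟨h, hh⟩, 1, ?_⟩
    intro h1
    have h2 : h = 1 := congrArg Subtype.val h1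
    rw [h2] at hx
    exact hxy hx.symm
  obtain ⟨V, hV1, hV2, hV3⟩ := Pool.Agent.R674.SI.exists_abelian_normal H
  have hmove : ∀ W : Subgroup H, W ≠ ⊥ → ∃ w ∈ W, ∃ x : Ω, (w : Perm Ω) x ≠ x := by
    intro W hW
    obtain ⟨w, hw, hw1⟩ := (Subgroup.bot_or_exists_ne_one W).resolve_left hW
    refine ⟨w, hw, ?_⟩
    by_contra hc
    push Not at hc
    exact hw1 (Subtype.ext (Equiv.ext hc))
  by_cases htr : ∀ x y : Ω, x ≠ α → y ≠ α → ∃ w ∈ V, (w : Perm Ω) x = y
  · -- the subgroup of the elements of order two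
    let W : Subgroup H :=
      { carrier := {v | v ∈ V ∧ v * v = 1}
        one_mem' := ⟨V.one_mem, one_mul 1⟩
        mul_mem' := by
          rintro a b ⟨ha, ha2⟩ ⟨hb, hb2⟩
          refine ⟨V.mul_mem ha hb, ?_⟩
          calc a * b * (a * b) = a * (b * a) * b := by group
            _ = a * (a * b) * b := by rw [hV3 b hb a ha]
            _ = (a * a) * (b * b) := by group
            _ = 1 := by rw [ha2, hb2, one_mul]
        inv_mem' := by
          rintro a ⟨ha, ha2⟩
          refine ⟨V.inv_mem ha, ?_⟩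
          rw [← mul_inv_rev, ha2, inv_one] }
    have hWn : W.Normal := by
      constructor
      rintro w ⟨hw, hw2⟩ g
      refine ⟨hV1.conj_mem w hw g, ?_⟩
      calc g * w * g⁻¹ * (g * w * g⁻¹) = g * (w * w) * g⁻¹ := by group
        _ = 1 := by rw [hw2]; group
    -- an element of `V` fixing a point other than `α` is trivial
    have hfree : ∀ v ∈ V, ∀ x : Ω, x ≠ α → (v : Perm Ω) x = x → v = 1 := by
      intro v hv x hx hvx
      apply Subtype.ext
      apply Equiv.ext
      intro y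
      by_cases hy : y = α
      · rw [hy, hα.1 _ v.2]
        rfl
      · obtain ⟨w, hw, hwx⟩ := htr x y hx hy
        have h1 : (v * w : H) = w * v := hV3 v hv w hw
        have h2 : (v : Perm Ω) ((w : Perm Ω) x) = (w : Perm Ω) ((v : Perm Ω) x) := by
          have := congrArg (fun u : H => (u : Perm Ω) x) h1
          exact this
        rw [← hwx, h2, hvx]
        rfl
    have hcard : Nat.card V = Fintype.card Ω - 1 := by
      have h1 : Fintype.card {x : Ω // x ≠ α} = Fintype.card Ω - 1 := by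
        rw [Fintype.card_subtype_compl, Fintype.card_subtype_eq]
      rw [← h1, ← Nat.card_eq_fintype_card]
      have hne : ∀ v : V, ((v : H) : Perm Ω) x₀ ≠ α := by
        intro v hv
        apply hx₀
        apply ((v : H) : Perm Ω).injective
        rw [hv, hα.1 _ (v : H).2]
      refine Nat.card_congr (Equiv.ofBijective (fun v : V => (⟨((v : H) : Perm Ω) x₀, hne v⟩ :
        {x : Ω // x ≠ α})) ⟨?_, ?_⟩)
      · intro u v huv
        have h2 : ((u : H) : Perm Ω) x₀ = ((v : H) : Perm Ω) x₀ := congrArg Subtype.val huv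
        have h3 : ((v : H)⁻¹ * (u : H) : H) = 1 := by
          refine hfree _ (V.mul_mem (V.inv_mem v.2) u.2) x₀ hx₀ ?_
          change ((v : H) : Perm Ω)⁻¹ (((u : H) : Perm Ω) x₀) = x₀
          rw [h2]
          exact Equiv.symm_apply_apply _ _
        exact Subtype.ext (inv_mul_eq_one.1 h3).symm
      · rintro ⟨x, hx⟩
        obtain ⟨v, hv, hvx⟩ := htr x₀ x hx₀ hx
        exact ⟨⟨v, hv⟩, Subtype.ext hvx⟩
    have hW0 : W ≠ ⊥ := by
      have h2 : 2 ∣ Nat.card V := by rw [hcard]; omega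
      have : Fact (Nat.Prime 2) := ⟨Nat.prime_two⟩
      obtain ⟨v, hv⟩ := exists_prime_orderOf_dvd_card' 2 h2
      intro hbot
      have h3 : (v : H) ∈ W := by
        refine ⟨v.2, ?_⟩
        have h4 : v ^ 2 = 1 := by rw [← hv, pow_orderOf_eq_one]
        have h5 : (v : H) ^ 2 = 1 := congrArg Subtype.val h4
        rw [← pow_two, h5]
      rw [hbot, Subgroup.mem_bot] at h3
      have h4 : v = 1 := Subtype.ext h3
      rw [h4, orderOf_one] at hv
      omega
    refine ⟨W, hWn, hmove W hW0, ?_⟩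
    intro htrW
    -- `W` would have order `|Ω| - 1`, a power of two
    have hcW : ∀ v ∈ V, v ∈ W := by
      intro v hv
      have hvx : (v : Perm Ω) x₀ ≠ α := by
        intro h
        apply hx₀
        apply (v : Perm Ω).injective
        rw [h, hα.1 _ v.2]
      obtain ⟨w, hw, hwx⟩ := htrW x₀ _ hx₀ hvx
      have h3 : (w⁻¹ * v : H) = 1 := by
        refine hfree _ (V.mul_mem (V.inv_mem hw.1) hv) x₀ hx₀ ?_
        change (w : Perm Ω)⁻¹ ((v : Perm Ω) x₀) = x₀
        rw [← hwx]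
        exact Equiv.symm_apply_apply _ _
      rw [← inv_mul_eq_one.1 h3]
      exact hw
    have hpow : IsPGroup 2 V := by
      intro v
      refine ⟨1, ?_⟩
      have h3 := (hcW v v.2).2
      apply Subtype.ext
      change (v : H) ^ 2 ^ 1 = 1
      rw [pow_one, pow_two]
      exact h3
    obtain ⟨k, hk⟩ := (IsPGroup.iff_card (p := 2)).1 hpow
    rw [hcard] at hk
    rcases Nat.lt_or_ge k 2 with h | h
    · have : k = 0 ∨ k = 1 := by omega
      rcases this with rfl | rfl
      · simp at hk; omega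
      · simp at hk; omega
    · obtain ⟨l, rfl⟩ := Nat.exists_eq_add_of_le h
      rw [pow_add] at hk
      have : (2 ^ 2 * 2 ^ l) % 4 = 0 := by norm_num
      omega
  · exact ⟨V, hV1, hmove V hV2, htr⟩

/-- labelled block systems -/
theorem exists_blocks (H : Subgroup (Perm Ω)) [Group.IsSolvable H] (α : Ω) (hα : TransOff H α)
    (h4 : Fintype.card Ω % 4 = 3) (h7 : 3 < Fintype.card Ω) :
    ∃ a b : ℕ, 2 ≤ a ∧ 2 ≤ b ∧ a * b = Fintype.card Ω - 1 ∧ ∃ f : Ω → Fin (b + 1),
      Function.Surjective f ∧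
      ∏ c, (Fintype.card {x // f x = c}).factorial = a.factorial ^ b ∧
      ∀ h ∈ H, ∃ σ : Perm (Fin (b + 1)), ∀ ω, f (h ω) = σ (f ω) := by
  classical
  obtain ⟨W, hWn, ⟨w₀, hw₀, x₁, hx₁⟩, hnt⟩ := exists_normal H α hα h4 h7
  let s : Setoid Ω :=
    { r := fun x y => ∃ w ∈ W, (w : Perm Ω) x = y
      iseqv := by
        refine ⟨fun x => ⟨1, W.one_mem, rfl⟩, ?_, ?_⟩
        · rintro x y ⟨w, hw, rfl⟩
          exact ⟨w⁻¹, W.inv_mem hw, Equiv.symm_apply_apply _ _⟩
        · rintro x y z ⟨w, hw, rfl⟩ ⟨v, hv, rfl⟩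
          exact ⟨v * w, W.mul_mem hv hw, rfl⟩ }
  have hs : ∀ x y : Ω, s x y ↔ ∃ w ∈ W, (w : Perm Ω) x = y := fun x y => Iff.rfl
  have hsh : ∀ h ∈ H, ∀ x y : Ω, s x y → s (h x) (h y) := by
    rintro h hh x y ⟨w, hw, rfl⟩
    refine ⟨⟨h, hh⟩ * w * ⟨h, hh⟩⁻¹, hWn.conj_mem w hw ⟨h, hh⟩, ?_⟩
    change h ((w : Perm Ω) (h⁻¹ (h x))) = h ((w : Perm Ω) x)
    congr 2
    exact Equiv.symm_apply_apply _ _
  have hαs : ∀ x : Ω, s α x ↔ x = α := by
    intro x
    constructor
    · rintro ⟨w, hw, rfl⟩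
      exact hα.1 _ w.2
    · rintro rfl
      exact ⟨1, W.one_mem, rfl⟩
  -- the quotient
  let Q := Quotient s
  let f0 : Ω → Q := fun x => Quotient.mk s x
  have hf0 : ∀ x y, f0 x = f0 y ↔ s x y := fun x y => Quotient.eq
  have hf0s : Function.Surjective f0 := fun q => by
    obtain ⟨x, rfl⟩ := Quotient.exists_rep q
    exact ⟨x, rfl⟩
  have hsize : ∀ h ∈ H, ∀ x : Ω, Fintype.card {y // f0 y = f0 x} =
      Fintype.card {y // f0 y = f0 (h x)} := by
    intro h hh x
    refine Fintype.card_congr ⟨fun y => ⟨h y.1, ?_⟩, fun y => ⟨h⁻¹ y.1, ?_⟩, ?_, ?_⟩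
    · rw [hf0]
      exact hsh h hh _ _ ((hf0 _ _).1 y.2)
    · rw [hf0]
      have h5 := hsh h⁻¹ (H.inv_mem hh) _ _ ((hf0 _ _).1 y.2)
      have h6 : h⁻¹ (h x) = x := Equiv.symm_apply_apply _ _
      rwa [h6] at h5
    · intro y
      exact Subtype.ext (Equiv.symm_apply_apply _ _)
    · intro y
      exact Subtype.ext (Equiv.apply_symm_apply _ _)
  have hx₁α : x₁ ≠ α := by
    rintro rfl
    exact hx₁ (hα.1 _ w₀.2)
  set a := Fintype.card {y // f0 y = f0 x₁} with ha
  have hall : ∀ x : Ω, x ≠ α → Fintype.card {y // f0 y = f0 x} = a := by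
    intro x hx
    obtain ⟨h, hh, hxx⟩ := hα.2 x₁ x hx₁α hx
    rw [ha, hsize h hh x₁, hxx]
  have hone : Fintype.card {y // f0 y = f0 α} = 1 := by
    rw [Fintype.card_eq_one_iff]
    refine ⟨⟨α, rfl⟩, fun y => Subtype.ext ?_⟩
    have := (hf0 _ _).1 y.2.symm
    exact (hαs _).1 this
  have ha2 : 2 ≤ a := by
    have h5 : 1 < a := by
      rw [ha, Fintype.one_lt_card_iff]
      refine ⟨⟨x₁, rfl⟩, ⟨(w₀ : Perm Ω) x₁, ?_⟩, ?_⟩
      · exact ((hf0 _ _).2 ⟨w₀, hw₀, rfl⟩).symm
      · intro h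
        exact hx₁ (congrArg Subtype.val h).symm
    omega
  -- the number of classes
  have hQsum : ∑ q : Q, Fintype.card {y // f0 y = q} = Fintype.card Ω := by
    rw [← Fintype.card_sigma]
    exact Fintype.card_congr (Equiv.sigmaFiberEquiv f0)
  have hqa : ∀ q ∈ (univ : Finset Q).erase (f0 α), Fintype.card {y // f0 y = q} = a := by
    intro q hq
    obtain ⟨x, rfl⟩ := hf0s q
    apply hall
    rintro rfl
    exact (mem_erase.1 hq).1 rfl
  obtain ⟨b, hb⟩ : ∃ b, Fintype.card Q = b + 1 := by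
    have : 0 < Fintype.card Q := Fintype.card_pos_iff.2 ⟨f0 α⟩
    exact ⟨Fintype.card Q - 1, by omega⟩
  have hbe : ((univ : Finset Q).erase (f0 α)).card = b := by
    rw [card_erase_of_mem (mem_univ _), card_univ, hb]
    rfl
  have hab : a * b = Fintype.card Ω - 1 := by
    rw [← hQsum, ← add_sum_erase _ _ (mem_univ (f0 α)), hone, sum_congr rfl hqa, sum_const, hbe,
      smul_eq_mul, add_comm, Nat.add_sub_cancel, mul_comm]
  have hb2 : 2 ≤ b := by
    by_contra hb2
    have h01 : b = 0 ∨ b = 1 := by omega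
    rcases h01 with h0 | h1
    · rw [h0, mul_zero] at hab
      omega
    · apply hnt
      intro x y hx hy
      rw [h1] at hbe
      obtain ⟨q, hq⟩ := card_eq_one.1 hbe
      have hxq : f0 x ∈ (univ : Finset Q).erase (f0 α) :=
        mem_erase.2 ⟨fun h => hx ((hαs _).1 ((hf0 _ _).1 h.symm)), mem_univ _⟩
      have hyq : f0 y ∈ (univ : Finset Q).erase (f0 α) :=
        mem_erase.2 ⟨fun h => hy ((hαs _).1 ((hf0 _ _).1 h.symm)), mem_univ _⟩
      rw [hq, mem_singleton] at hxq hyq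
      exact (hf0 _ _).1 (hxq.trans hyq.symm)
  let e : Q ≃ Fin (b + 1) := Fintype.equivFinOfCardEq hb
  refine ⟨a, b, ha2, hb2, hab, fun x => e (f0 x), e.surjective.comp hf0s, ?_, ?_⟩
  · have h5 : ∏ c : Fin (b + 1), (Fintype.card {x // e (f0 x) = c}).factorial =
        ∏ q : Q, (Fintype.card {x // f0 x = q}).factorial := by
      symm
      refine Fintype.prod_equiv e _ _ ?_
      intro q
      congr 1
      refine Fintype.card_congr (Equiv.subtypeEquivRight fun x => ?_)
      exact e.injective.eq_iff.symm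
    rw [h5, ← mul_prod_erase _ _ (mem_univ (f0 α)), hone, Nat.factorial_one, one_mul]
    have h6 : ∀ q ∈ (univ : Finset Q).erase (f0 α),
        (Fintype.card {y // f0 y = q}).factorial = a.factorial := fun q hq => by rw [hqa q hq]
    rw [prod_congr rfl h6, prod_const, hbe]
  · intro h hh
    have hmap : ∀ g ∈ H, ∃ m : Q → Q, ∀ x, m (f0 x) = f0 (g x) := fun g hg =>
      ⟨Quotient.lift (fun x => f0 (g x)) (fun x y hxy => (hf0 _ _).2 (hsh g hg x y hxy)),
        fun x => rfl⟩
    obtain ⟨m, hm⟩ := hmap h hh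
    obtain ⟨m', hm'⟩ := hmap h⁻¹ (H.inv_mem hh)
    let τ : Perm Q := ⟨m, m', fun q => by
        obtain ⟨x, rfl⟩ := hf0s q
        rw [hm, hm']
        congr 1
        exact Equiv.symm_apply_apply _ _, fun q => by
        obtain ⟨x, rfl⟩ := hf0s q
        rw [hm', hm]
        congr 1
        exact Equiv.apply_symm_apply _ _⟩
    refine ⟨(e.symm.trans τ).trans e, fun ω => ?_⟩
    change e (f0 (h ω)) = e (m (e.symm (e (f0 ω))))
    rw [e.symm_apply_apply, hm]

end Pool.Agent.N61.SG
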