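import Mathlib

/-!
# Counting permutations which map invariant structures to invariant structures
-/

set_option autoImplicit false

namespace Pool.Agent.N61.SG

open Equiv Finset

variable {Ω C : Type} [Fintype Ω] [DecidableEq Ω] [Fintype C] [DecidableEq C]

/-- every orbit of `z` contains an element of `D` -/
def Reps (z : Perm Ω) (D : Finset Ω) : Prop := ∀ ω, ∃ i : ℕ, ∃ d ∈ D, (z ^ i) d = ω

omit [Fintype Ω] [DecidableEq Ω] [Fintype C] [DecidableEq C] in
theorem equiv_pow {z : Perm Ω} {σ : C → C} {f : Ω → C} (hf : ∀ ω, f (z ω) = σ (f ω)) (i : ℕ)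
    (ω : Ω) : f ((z ^ i) ω) = σ^[i] (f ω) := by
  induction i generalizing ω with
  | zero => rfl
  | succ i ih =>
    rw [pow_succ, Perm.mul_apply, ih, hf, Function.iterate_succ_apply]

/-- functions equivariant for a given relabelling are determined by the values on representatives -/
theorem card_equivariant (z : Perm Ω) (σ : C → C) (D : Finset Ω) (hD : Reps z D) :
    (univ.filter (fun f : Ω → C => ∀ ω, f (z ω) = σ (f ω))).card ≤ (Fintype.card C) ^ D.card := by
  classical
  have h1 : Fintype.card (D → C) = (Fintype.card C) ^ D.card := by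
    rw [Fintype.card_fun, Fintype.card_coe]
  rw [← h1, ← Finset.card_univ]
  refine Finset.card_le_card_of_injOn (fun f => fun d : D => f d) (fun _ _ => mem_univ _) ?_
  intro f hf f' hf' heq
  have hf1 := (mem_filter.1 (mem_coe.1 hf)).2
  have hf2 := (mem_filter.1 (mem_coe.1 hf')).2
  funext ω
  obtain ⟨i, d, hd, rfl⟩ := hD ω
  rw [equiv_pow hf1, equiv_pow hf2]
  have := congrFun heq ⟨d, hd⟩
  simp only at this
  rw [this]

/-- the number of permutations carrying one function to another one -/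
theorem card_comp_eq (f f' : Ω → C) :
    (univ.filter (fun g : Perm Ω => ∀ ω, f (g ω) = f' ω)).card ≤
      ∏ c, (Fintype.card {a // f a = c}).factorial := by
  classical
  rcases (univ.filter (fun g : Perm Ω => ∀ ω, f (g ω) = f' ω)).eq_empty_or_nonempty with h | ⟨g₀, h0⟩
  · rw [h, card_empty]
    exact Nat.zero_le _
  · have h0' := (mem_filter.1 h0).2
    rw [← DomMulAct.stabilizer_card f, Fintype.card_subtype]
    refine Finset.card_le_card_of_injOn (fun g => g * g₀⁻¹) ?_ ?_
    · intro g hg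
      have hg' := (mem_filter.1 (mem_coe.1 hg)).2
      rw [mem_coe, mem_filter]
      refine ⟨mem_univ _, ?_⟩
      funext ω
      change f (g (g₀⁻¹ ω)) = f ω
      rw [hg', ← h0']
      exact congrArg f (Equiv.apply_symm_apply g₀ ω)
    · intro g _ g' _ h
      exact mul_right_cancel h

/-- the fundamental count, with multiplicity `s` -/
theorem card_bad (F G : Finset (Ω → C)) (K s : ℕ)
    (hK : ∀ f ∈ F, ∏ c, (Fintype.card {a // f a = c}).factorial ≤ K) (B : Finset (Perm Ω))
    (hs : ∀ g ∈ B, s ≤ (F.filter (fun f => (fun ω => f (g ω)) ∈ G)).card) :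
    s * B.card ≤ F.card * G.card * K := by
  classical
  have h1 : s * B.card ≤ ((B ×ˢ F).filter (fun q => (fun ω => q.2 (q.1 ω)) ∈ G)).card := by
    have e : ((B ×ˢ F).filter (fun q => (fun ω => q.2 (q.1 ω)) ∈ G)).card =
        ∑ g ∈ B, (F.filter (fun f => (fun ω => f (g ω)) ∈ G)).card := by
      simp only [card_filter]
      rw [sum_product]
    rw [e, mul_comm]
    exact Finset.card_nsmul_le_sum _ _ _ hs
  refine h1.trans ?_
  have h2 : ((B ×ˢ F).filter (fun q => (fun ω => q.2 (q.1 ω)) ∈ G)).card ≤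
      ∑ r ∈ F ×ˢ G, (univ.filter (fun g : Perm Ω => ∀ ω, r.1 (g ω) = r.2 ω)).card := by
    rw [← card_sigma]
    refine Finset.card_le_card_of_injOn
      (fun q => (⟨(q.2, fun ω => q.2 (q.1 ω)), q.1⟩ : Σ _ : (Ω → C) × (Ω → C), Perm Ω)) ?_ ?_
    · intro q hq
      obtain ⟨hq1, hq2⟩ := mem_filter.1 (mem_coe.1 hq)
      obtain ⟨hq3, hq4⟩ := mem_product.1 hq1
      simp only [coe_sigma, Set.mem_sigma_iff, mem_coe, mem_product, mem_filter, mem_univ,
        true_and]
      exact ⟨⟨hq4, hq2⟩, fun ω => trivial⟩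
    · rintro ⟨g, f⟩ _ ⟨g', f'⟩ _ h
      simp only [Sigma.mk.injEq, Prod.mk.injEq] at h
      obtain ⟨⟨h1, _⟩, h3⟩ := h
      rw [h1, eq_of_heq h3]
  refine h2.trans ?_
  calc ∑ r ∈ F ×ˢ G, (univ.filter (fun g : Perm Ω => ∀ ω, r.1 (g ω) = r.2 ω)).card
      ≤ ∑ r ∈ F ×ˢ G, K := by
        apply sum_le_sum
        intro r hr
        exact (card_comp_eq r.1 r.2).trans (hK _ (mem_product.1 hr).1)
    _ = F.card * G.card * K := by
        rw [sum_const, card_product, smul_eq_mul]

end Pool.Agent.N61.SG
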