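import Mathlib
import Pool.Agent.N61.SG.Affine
import Pool.Agent.N61.SG.Count

/-!
# Affine permutations of prime order and their invariant sets
-/

set_option autoImplicit false

namespace Pool.Agent.N61.SG

open Equiv Finset

variable {p : ℕ} [Fact p.Prime]

theorem exists_transversal (a : ZMod p) (ha : a ≠ 0) (q : ℕ) (hq : orderOf a = q) (hq0 : 0 < q) :
    ∃ E : Finset (ZMod p), (∀ e ∈ E, e ≠ 0) ∧ E.card * q = p - 1 ∧
      (∀ u : ZMod p, u ≠ 0 → ∃ i < q, ∃ e ∈ E, a ^ i * e = u) ∧
      (∀ i < q, ∀ j < q, ∀ e ∈ E, ∀ e' ∈ E, a ^ i * e = a ^ j * e' → i = j ∧ e = e') := by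
  classical
  have hp : p.Prime := Fact.out
  set au : (ZMod p)ˣ := Units.mk0 a ha with hau
  have hval : (au : ZMod p) = a := rfl
  have hord : orderOf au = q := by
    rw [← orderOf_units, hval, hq]
  obtain ⟨S, hS, -⟩ := (Subgroup.zpowers au).exists_isComplement_right 1
  have hcard : Nat.card (Subgroup.zpowers au) * Nat.card S = p - 1 := by
    have h1 := hS.card_mul_card
    have h2 : Nat.card (ZMod p)ˣ = p - 1 := by
      rw [Nat.card_eq_fintype_card, ZMod.card_units_eq_totient, Nat.totient_prime hp]
    rw [← h2, ← h1]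
    rfl
  have hcz : Nat.card (Subgroup.zpowers au) = q := by
    rw [Nat.card_zpowers, hord]
  refine ⟨S.toFinset.image (fun u : (ZMod p)ˣ => (u : ZMod p)), ?_, ?_, ?_, ?_⟩
  · intro e he
    obtain ⟨u, -, rfl⟩ := mem_image.1 he
    exact u.ne_zero
  · rw [card_image_of_injective _ Units.val_injective, ← hcard, hcz, mul_comm, Set.toFinset_card,
      Nat.card_eq_fintype_card]
  · intro u hu
    obtain ⟨⟨t, s⟩, hts⟩ := hS.2 (Units.mk0 u hu)
    have ht := t.2
    obtain ⟨n, hn⟩ := mem_powers_iff_mem_zpowers.2 ht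
    refine ⟨n % q, Nat.mod_lt _ hq0, s.1, mem_image.2 ⟨s.1, Set.mem_toFinset.2 s.2, rfl⟩, ?_⟩
    have h1 : a ^ (n % q) = a ^ n := by rw [← hq, pow_mod_orderOf]
    rw [h1]
    have h2 := congrArg (fun x : (ZMod p)ˣ => (x : ZMod p)) hts
    have h3 : (t.1 : ZMod p) = a ^ n := by
      rw [← hval, ← Units.val_pow_eq_pow_val]
      exact congrArg (fun x : (ZMod p)ˣ => (x : ZMod p)) hn.symm
    simp only [Units.val_mul, Units.val_mk0] at h2
    rw [← h3]
    exact h2
  · intro i hi j hj e he e' he' h
    obtain ⟨u, hu, rfl⟩ := mem_image.1 he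
    obtain ⟨u', hu', rfl⟩ := mem_image.1 he'
    rw [Set.mem_toFinset] at hu hu'
    have h1 : au ^ i * u = au ^ j * u' := by
      apply Units.val_injective
      simpa [hval] using h
    have h2 := hS.1 (a₁ := (⟨au ^ i, Subgroup.npow_mem_zpowers au i⟩, ⟨u, hu⟩))
      (a₂ := (⟨au ^ j, Subgroup.npow_mem_zpowers au j⟩, ⟨u', hu'⟩)) h1
    have h3 : au ^ i = au ^ j := congrArg (fun x => x.1.1) h2
    have h4 : u = u' := congrArg (fun x => x.2.1) h2
    rw [pow_inj_mod, hord, Nat.mod_eq_of_lt hi, Nat.mod_eq_of_lt hj] at h3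
    exact ⟨h3, by rw [h4]⟩

/-- homotheties of prime order `q` with centre `α` -/
def Homot (z : Perm (ZMod p)) (q : ℕ) (α a : ZMod p) : Prop :=
  q.Prime ∧ orderOf a = q ∧ ∀ x, z x = α + a * (x - α)

theorem Homot.pow {z : Perm (ZMod p)} {q : ℕ} {α a : ZMod p} (h : Homot z q α a) (i : ℕ)
    (x : ZMod p) : (z ^ i) x = α + a ^ i * (x - α) := by
  induction i with
  | zero => simp
  | succ i ih =>
    rw [pow_succ', Perm.mul_apply, ih, h.2.2]
    ring

theorem Homot.ne_zero {z : Perm (ZMod p)} {q : ℕ} {α a : ZMod p} (h : Homot z q α a) : a ≠ 0 := by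
  rintro rfl
  have h1 := h.2.1
  rw [orderOf_zero] at h1
  exact h.1.ne_zero h1.symm

theorem Homot.fix {z : Perm (ZMod p)} {q : ℕ} {α a : ZMod p} (h : Homot z q α a) : z α = α := by
  rw [h.2.2]; ring

theorem Homot.fix_iff {z : Perm (ZMod p)} {q : ℕ} {α a : ZMod p} (h : Homot z q α a)
    (x : ZMod p) : z x = x ↔ x = α := by
  constructor
  · intro hx
    rw [h.2.2] at hx
    have h1 : (a - 1) * (x - α) = 0 := by linear_combination hx
    rcases mul_eq_zero.1 h1 with h2 | h2
    · exfalso
      have h3 : a = 1 := sub_eq_zero.1 h2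
      have h4 := h.2.1
      rw [h3, orderOf_one] at h4
      exact h.1.ne_one h4.symm
    · exact sub_eq_zero.1 h2
  · rintro rfl
    exact h.fix

set_option maxHeartbeats 4000000 in
/-- representatives of the orbits of a homothety, and the number of its invariant sets -/
theorem Homot.inv {z : Perm (ZMod p)} {q : ℕ} {α a : ZMod p} (h : Homot z q α a) :
    ∃ m : ℕ, m * q = p - 1 ∧ (∃ D : Finset (ZMod p), D.card ≤ m + 1 ∧ Reps z D) ∧
      ∀ j : ℕ, (univ.filter (fun f : ZMod p → Bool => (∀ ω, f (z ω) = f ω) ∧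
        (univ.filter (fun ω => f ω = true)).card = j)).card ≤ m.choose (j / q) ∧
        ((univ.filter (fun f : ZMod p → Bool => (∀ ω, f (z ω) = f ω) ∧
        (univ.filter (fun ω => f ω = true)).card = j)).Nonempty → j % q ≤ 1) := by
  classical
  obtain ⟨E, hE0, hEc, hE1, hE2⟩ := exists_transversal a h.ne_zero q h.2.1 h.1.pos
  refine ⟨E.card, hEc, ⟨insert α (E.image (fun e => α + e)), ?_, ?_⟩, ?_⟩
  · exact (card_insert_le _ _).trans (Nat.succ_le_succ card_image_le)
  · intro ω
    by_cases hω : ω = α
    · exact ⟨0, α, mem_insert_self _ _, by rw [hω]; rfl⟩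
    · obtain ⟨i, -, e, he, hie⟩ := hE1 (ω - α) (sub_ne_zero.2 hω)
      refine ⟨i, α + e, mem_insert_of_mem (mem_image.2 ⟨e, he, rfl⟩), ?_⟩
      rw [h.pow, add_sub_cancel_left, hie]
      ring
  -- the number of points of an invariant set
  have key : ∀ f : ZMod p → Bool, (∀ ω, f (z ω) = f ω) →
      (univ.filter (fun ω => f ω = true)).card =
        (E.filter (fun e => f (α + e) = true)).card * q + (if f α = true then 1 else 0) := by
    intro f hf
    have hfi : ∀ (i : ℕ) (e : ZMod p), f (α + a ^ i * e) = f (α + e) := by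
      intro i e
      have h1 := equiv_pow (σ := id) (fun ω => hf ω) i (α + e)
      rw [h.pow, add_sub_cancel_left, Function.iterate_id] at h1
      exact h1
    have h1 : (univ.filter (fun ω => f ω = true)) =
        ((E.filter (fun e => f (α + e) = true)) ×ˢ range q).image
          (fun r => α + a ^ r.2 * r.1) ∪ (if f α = true then {α} else ∅) := by
      ext ω
      simp only [mem_filter, mem_univ, true_and, mem_union, mem_image, mem_product, mem_range,
        Prod.exists]
      constructor
      · intro hω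
        by_cases hωα : ω = α
        · right
          rw [hωα] at hω
          rw [if_pos hω, hωα]
          exact mem_singleton_self _
        · left
          obtain ⟨i, hi, e, he, hie⟩ := hE1 (ω - α) (sub_ne_zero.2 hωα)
          refine ⟨e, i, ⟨⟨he, ?_⟩, hi⟩, by rw [hie]; ring⟩
          rw [← hfi i e, hie]
          rw [add_sub_cancel]
          exact hω
      · rintro (⟨e, i, ⟨⟨he, hfe⟩, hi⟩, rfl⟩ | hω)
        · rw [hfi]
          exact hfe
        · split_ifs at hω with h2
          · rw [mem_singleton] at hω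
            rw [hω]
            exact h2
          · simp at hω
    rw [h1, card_union_of_disjoint, card_image_of_injOn, card_product, card_range]
    · split_ifs <;> simp
    · rintro ⟨e, i⟩ hr ⟨e', i'⟩ hr' heq
      rw [mem_coe, mem_product, mem_filter, mem_range] at hr hr'
      simp only at heq hr hr'
      have h3 : a ^ i * e = a ^ i' * e' := add_left_cancel heq
      obtain ⟨h4, h5⟩ := hE2 i hr.2 i' hr'.2 e hr.1.1 e' hr'.1.1 h3
      rw [h4, h5]
    · rw [disjoint_left]
      intro ω hω1 hω2
      split_ifs at hω2 with h2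
      · rw [mem_singleton] at hω2
        obtain ⟨⟨e, i⟩, hr, hω⟩ := mem_image.1 hω1
        rw [mem_product, mem_filter] at hr
        simp only at hω hr
        rw [hω2] at hω
        have h3 : a ^ i * e = 0 := by
          have := hω
          linear_combination this
        rcases mul_eq_zero.1 h3 with h4 | h4
        · exact h.ne_zero (eq_zero_of_pow_eq_zero h4)
        · exact hE0 e hr.1.1 h4
      · simp at hω2
  intro j
  have hq1 : 1 < q := h.1.one_lt
  have hdm : ∀ f : ZMod p → Bool, (∀ ω, f (z ω) = f ω) →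
      (univ.filter (fun ω => f ω = true)).card = j →
      (E.filter (fun e => f (α + e) = true)).card = j / q ∧
        (if f α = true then 1 else 0) = j % q := by
    intro f hf hj
    have h1 := key f hf
    rw [hj] at h1
    have h2 : (if f α = true then 1 else 0) < q := by split_ifs <;> omega
    constructor
    · rw [h1, mul_comm, Nat.mul_add_div (by omega), Nat.div_eq_of_lt h2, add_zero]
    · rw [h1, mul_comm, Nat.mul_add_mod, Nat.mod_eq_of_lt h2]
  constructor
  · rw [← card_powersetCard]
    refine Finset.card_le_card_of_injOn (fun f => E.filter (fun e => f (α + e) = true)) ?_ ?_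
    · intro f hf
      obtain ⟨hf1, hf2⟩ := (mem_filter.1 (mem_coe.1 hf)).2
      rw [mem_coe, mem_powersetCard]
      exact ⟨filter_subset _ _, (hdm f hf1 hf2).1⟩
    · intro f hf f' hf' heq
      obtain ⟨hf1, hf2⟩ := (mem_filter.1 (mem_coe.1 hf)).2
      obtain ⟨hf1', hf2'⟩ := (mem_filter.1 (mem_coe.1 hf')).2
      funext ω
      by_cases hωα : ω = α
      · have h1 := (hdm f hf1 hf2).2
        have h2 := (hdm f' hf1' hf2').2
        have h5 : (if f α = true then 1 else 0 : ℕ) = if f' α = true then 1 else 0 :=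
          h1.trans h2.symm
        rw [hωα, Bool.eq_iff_iff]
        by_cases c1 : f α = true
        · by_cases c2 : f' α = true
          · exact iff_of_true c1 c2
          · rw [if_pos c1, if_neg c2] at h5
            exact absurd h5 one_ne_zero
        · by_cases c2 : f' α = true
          · rw [if_neg c1, if_pos c2] at h5
            exact absurd h5 zero_ne_one
          · exact iff_of_false c1 c2
      · obtain ⟨i, hi, e, he, hie⟩ := hE1 (ω - α) (sub_ne_zero.2 hωα)
        have hω : ω = (z ^ i) (α + e) := by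
          rw [h.pow, add_sub_cancel_left, hie]
          ring
        rw [hω, equiv_pow (σ := id) (fun ω => hf1 ω), equiv_pow (σ := id) (fun ω => hf1' ω)]
        simp only [Function.iterate_id, id]
        have h1 : e ∈ E.filter (fun e => f (α + e) = true) ↔
            e ∈ E.filter (fun e => f' (α + e) = true) := by
          simp only at heq
          rw [heq]
        rw [mem_filter, mem_filter] at h1
        exact Bool.eq_iff_iff.2
          ⟨fun h => (h1.1 ⟨he, h⟩).2, fun h => (h1.2 ⟨he, h⟩).2⟩
  · rintro ⟨f, hf⟩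
    obtain ⟨hf1, hf2⟩ := (mem_filter.1 hf).2
    rw [← (hdm f hf1 hf2).2]
    split_ifs <;> omega

end Pool.Agent.N61.SG
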