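import Mathlib

/-!
# Numerical estimates
-/

set_option autoImplicit false

namespace Pool.Agent.N61.SG

open Finset

theorem choose_mul_choose_le (m n k l : ℕ) :
    m.choose k * n.choose l ≤ (m + n).choose (k + l) := by
  rw [Nat.add_choose_eq]
  exact Finset.single_le_sum (f := fun ij : ℕ × ℕ => m.choose ij.1 * n.choose ij.2)
    (fun _ _ => Nat.zero_le _) (a := (k, l)) (Finset.HasAntidiagonal.mem_antidiagonal.2 rfl)

theorem choose_pow_le (m k r : ℕ) : (m.choose k) ^ r ≤ (r * m).choose (r * k) := by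
  induction r with
  | zero => simp
  | succ r ih =>
    rw [pow_succ, Nat.succ_mul, Nat.succ_mul]
    exact (Nat.mul_le_mul_right _ ih).trans (choose_mul_choose_le _ _ _ _)

/-- the number of invariant sets compared with the number of all sets -/
theorem inv_bound {p q m j : ℕ} (hq : 4 ≤ q) (hm : m * q = p - 1) (hp : 1 ≤ p) (hj : j % q ≤ 1) :
    (m.choose (j / q)) ^ 4 ≤ p.choose j := by
  have h1 : (m.choose (j / q)) ^ 4 ≤ (m.choose (j / q)) ^ q ∨ m.choose (j / q) = 0 := by
    rcases Nat.eq_zero_or_pos (m.choose (j / q)) with h | h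
    · exact Or.inr h
    · exact Or.inl (Nat.pow_le_pow_right h hq)
  rcases h1 with h1 | h1
  · refine h1.trans ((choose_pow_le _ _ _).trans ?_)
    have hp' : p = q * m + 1 := by rw [mul_comm q m, hm]; omega
    have hj' : j = q * (j / q) + j % q := (Nat.div_add_mod j q).symm
    have h01 : j % q = 0 ∨ j % q = 1 := by omega
    rcases h01 with h0 | h0
    · rw [h0, add_zero] at hj'
      conv_rhs => rw [hp', hj']
      exact Nat.choose_le_succ _ _
    · rw [h0] at hj'
      conv_rhs => rw [hp', hj']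
      rw [Nat.choose_succ_succ']
      exact Nat.le_add_right _ _
  · rw [h1]
    simp

theorem combine {P x y B : ℕ} (hx : x ^ 4 ≤ B) (hy : y ^ 4 ≤ B) (hB : 16 * P ^ 10 ≤ B) :
    4 * P ^ 5 * (x * y) ≤ B := by
  have h1 : (x * y) ^ 2 ≤ B := by
    have h2 : ((x * y) ^ 2) ^ 2 ≤ B ^ 2 := by
      calc ((x * y) ^ 2) ^ 2 = x ^ 4 * y ^ 4 := by ring
        _ ≤ B * B := Nat.mul_le_mul hx hy
        _ = B ^ 2 := by ring
    exact (Nat.pow_le_pow_iff_left (by norm_num)).1 h2
  have h3 : (4 * P ^ 5 * (x * y)) ^ 2 ≤ B ^ 2 := by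
    calc (4 * P ^ 5 * (x * y)) ^ 2 = (16 * P ^ 10) * (x * y) ^ 2 := by ring
      _ ≤ B * B := Nat.mul_le_mul hB h1
      _ = B ^ 2 := by ring
  exact (Nat.pow_le_pow_iff_left (by norm_num)).1 h3

theorem choose_half {p : ℕ} (hp : 2 ^ 14 ≤ p) : 16 * p ^ 10 ≤ (p / 2).choose 16 := by
  have h1 : (p / 2 + 1 - 16) ^ 16 ≤ (p / 2).descFactorial 16 := Nat.pow_sub_le_descFactorial _ _
  rw [Nat.descFactorial_eq_factorial_mul_choose] at h1
  have h2 : p ≤ 4 * (p / 2 + 1 - 16) := by omega
  have h3 : p ^ 16 ≤ 4 ^ 16 * (p / 2 + 1 - 16) ^ 16 := by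
    rw [← mul_pow]
    exact Nat.pow_le_pow_left h2 16
  have h4 : (2 ^ 14) ^ 6 ≤ p ^ 6 := Nat.pow_le_pow_left hp 6
  have h5 : 4 ^ 16 * (Nat.factorial 16 * (16 * p ^ 10)) ≤
      4 ^ 16 * (Nat.factorial 16 * (p / 2).choose 16) := by
    calc 4 ^ 16 * (Nat.factorial 16 * (16 * p ^ 10)) =
        (4 ^ 16 * Nat.factorial 16 * 16) * p ^ 10 := by ring
      _ ≤ (2 ^ 14) ^ 6 * p ^ 10 := Nat.mul_le_mul_right _ (by norm_num [Nat.factorial])
      _ ≤ p ^ 6 * p ^ 10 := Nat.mul_le_mul_right _ h4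
      _ = p ^ 16 := by ring
      _ ≤ 4 ^ 16 * (p / 2 + 1 - 16) ^ 16 := h3
      _ ≤ _ := Nat.mul_le_mul_left _ h1
  have h6 := Nat.le_of_mul_le_mul_left h5 (by positivity)
  exact Nat.le_of_mul_le_mul_left h6 (Nat.factorial_pos _)

theorem choose_large {p j : ℕ} (hp : 2 ^ 14 ≤ p) (h1 : 64 ≤ j) (h2 : j + 64 ≤ p) :
    16 * p ^ 10 ≤ p.choose j := by
  have key : ∀ j : ℕ, 64 ≤ j → j ≤ p / 2 → 16 * p ^ 10 ≤ p.choose j := by
    intro j h1 h2
    refine (choose_half hp).trans ?_
    have h3 := choose_mul_choose_le (p / 2) (p - p / 2) 16 (j - 16)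
    rw [show p / 2 + (p - p / 2) = p by omega, show 16 + (j - 16) = j by omega] at h3
    refine le_trans ?_ h3
    exact Nat.le_mul_of_pos_right _ (Nat.choose_pos (by omega))
  rcases Nat.lt_or_ge (p / 2) j with h | h
  · rw [← Nat.choose_symm (by omega : j ≤ p)]
    rcases Nat.lt_or_ge (p / 2) (p - j) with h' | h'
    · omega
    · exact key _ (by omega) h'
  · exact key j h1 h

/-- first estimate: invariant sets -/
theorem num1 {p q q' m m' j : ℕ} (hp : 2 ^ 14 ≤ p) (hq : 64 < q) (hq' : 64 < q')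
    (hm : m * q = p - 1) (hm' : m' * q' = p - 1) (hj : 2 ≤ j) (hj' : j + 2 ≤ p)
    (h1 : j % q ≤ 1) (h2 : j % q' ≤ 1) :
    4 * p ^ 5 * (m.choose (j / q) * m'.choose (j / q') * (j.factorial * (p - j).factorial)) ≤
      p.factorial := by
  have hjq : q ≤ j := by
    by_contra h
    rw [Nat.mod_eq_of_lt (by omega)] at h1
    omega
  have hjp : j + q ≤ p := by
    have h3 : j = q * (j / q) + j % q := (Nat.div_add_mod j q).symm
    have h4 : j / q < m := by
      by_contra h4
      push Not at h4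
      have h5 : m * q ≤ (j / q) * q := Nat.mul_le_mul_right _ h4
      have h6 : (j / q) * q = q * (j / q) := mul_comm _ _
      omega
    have h5 : (j / q + 1) * q ≤ m * q := Nat.mul_le_mul_right _ h4
    have h6 : (j / q + 1) * q = q * (j / q) + q := by ring
    omega
  have hB := choose_large hp (by omega : 64 ≤ j) (by omega : j + 64 ≤ p)
  have h3 := combine (inv_bound (by omega) hm (by omega) h1) (inv_bound (by omega) hm' (by omega) h2) hB
  have h4 : p.factorial = p.choose j * (j.factorial * (p - j).factorial) := by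
    rw [← mul_assoc, Nat.choose_mul_factorial_mul_factorial (by omega)]
  rw [h4]
  calc 4 * p ^ 5 * (m.choose (j / q) * m'.choose (j / q') * (j.factorial * (p - j).factorial))
      = (4 * p ^ 5 * (m.choose (j / q) * m'.choose (j / q'))) *
        (j.factorial * (p - j).factorial) := by ring
    _ ≤ _ := Nat.mul_le_mul_right _ h3

theorem pow_self_le (n : ℕ) : n ^ n ≤ n.factorial ^ 2 := by
  have h1 : n.factorial = ∏ i ∈ range n, (i + 1) := (Finset.prod_range_add_one_eq_factorial n).symm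
  have h2 : n.factorial = ∏ i ∈ range n, (n - i) := by
    rw [h1, ← Finset.prod_range_reflect]
    apply prod_congr rfl
    intro i hi
    have := mem_range.1 hi
    omega
  calc n ^ n = ∏ i ∈ range n, n := by rw [prod_const, card_range]
    _ ≤ ∏ i ∈ range n, ((i + 1) * (n - i)) := by
        apply prod_le_prod'
        intro i hi
        have hi' := mem_range.1 hi
        obtain ⟨k, rfl⟩ := Nat.exists_eq_add_of_lt hi'
        have : i + k + 1 - i = k + 1 := by omega
        rw [this]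
        nlinarith [Nat.zero_le (i * k)]
    _ = n.factorial ^ 2 := by
        rw [prod_mul_distrib, ← h1, ← h2, pow_two]

theorem fact_mul (a b : ℕ) : a.factorial ^ b * b.factorial ^ a ≤ (a * b).factorial := by
  induction b with
  | zero => simp
  | succ b ih =>
    have h1 : (a * b).factorial * (a.factorial * (b + 1) ^ a) ≤ (a * (b + 1)).factorial := by
      rw [mul_add, mul_one, ← Nat.factorial_mul_ascFactorial]
      apply Nat.mul_le_mul_left
      rw [Nat.ascFactorial_eq_prod_range, ← Finset.prod_range_add_one_eq_factorial]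
      calc (∏ i ∈ range a, (i + 1)) * (b + 1) ^ a = ∏ i ∈ range a, ((i + 1) * (b + 1)) := by
            rw [prod_mul_distrib, prod_const, card_range]
        _ ≤ ∏ i ∈ range a, (a * b + 1 + i) := by
            apply prod_le_prod'
            intro i hi
            have := mem_range.1 hi
            nlinarith
    calc a.factorial ^ (b + 1) * (b + 1).factorial ^ a
        = (a.factorial ^ b * b.factorial ^ a) * (a.factorial * (b + 1) ^ a) := by
          rw [Nat.factorial_succ, mul_pow, pow_succ]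
          ring
      _ ≤ (a * b).factorial * (a.factorial * (b + 1) ^ a) := Nat.mul_le_mul_right _ ih
      _ ≤ _ := h1

theorem le_two_pow {p : ℕ} (hp : 2 ^ 14 ≤ p) : p ≤ 2 ^ (p / 1024) := by
  have key : ∀ k : ℕ, 16 ≤ k → 1024 * (k + 1) ≤ 2 ^ k := by
    intro k hk
    induction k, hk using Nat.le_induction with
    | base => norm_num
    | succ k hk ih =>
      rw [pow_succ]
      omega
  have h1 := key (p / 1024) (by omega)
  have h2 : p < 1024 * (p / 1024 + 1) := by omega
  omega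

/-- third estimate: affine structures -/
theorem num3 {p M : ℕ} (hp : 2 ^ 14 ≤ p) (hM : 64 * M ≤ p - 1) :
    4 * p ^ 4 * (p ^ (2 + (M + 1)) * p ^ (2 + (M + 1))) ≤ p.factorial := by
  have h1 : (4 * p ^ 4 * (p ^ (2 + (M + 1)) * p ^ (2 + (M + 1)))) ^ 2 ≤ p.factorial ^ 2 := by
    refine le_trans ?_ (pow_self_le p)
    calc (4 * p ^ 4 * (p ^ (2 + (M + 1)) * p ^ (2 + (M + 1)))) ^ 2
        = 16 * p ^ (20 + 4 * M) := by ring
      _ ≤ p * p ^ (20 + 4 * M) := Nat.mul_le_mul_right _ (by omega)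
      _ = p ^ (21 + 4 * M) := by ring
      _ ≤ p ^ p := Nat.pow_le_pow_right (by omega) (by omega)
  exact (Nat.pow_le_pow_iff_left (by norm_num)).1 h1

/-- second estimate: block systems -/
theorem num2 {p M a b : ℕ} (hp : 2 ^ 14 ≤ p) (hM : 64 * M ≤ p - 1) (ha : 2 ≤ a) (hb : 2 ≤ b)
    (hab : a * b = p - 1) :
    4 * p ^ 5 * ((b + 1).factorial * ((b + 1) ^ (M + 1) * (b + 1) ^ (M + 1)) *
      a.factorial ^ b) ≤ p.factorial := by
  have hbb : b + 1 ≤ b ^ 2 := by nlinarith
  have key : 4 * p ^ 4 * (b + 1) ^ (2 * M + 3) ≤ b.factorial ^ (a - 1) := by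
    have h1 : (4 * p ^ 4 * (b + 1) ^ (2 * M + 3)) ^ 4 ≤ (b.factorial ^ (a - 1)) ^ 4 := by
      have hR : b ^ (p - 1) ≤ (b.factorial ^ (a - 1)) ^ 4 := by
        calc b ^ (p - 1) = (b ^ b) ^ a := by rw [← pow_mul, mul_comm b a, hab]
          _ ≤ (b.factorial ^ 2) ^ a := Nat.pow_le_pow_left (pow_self_le b) a
          _ = b.factorial ^ (2 * a) := by rw [← pow_mul]
          _ ≤ b.factorial ^ ((a - 1) * 4) :=
              Nat.pow_le_pow_right (Nat.factorial_pos b) (by omega)
          _ = (b.factorial ^ (a - 1)) ^ 4 := by rw [pow_mul]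
      refine le_trans ?_ hR
      have h2 : p ^ 16 ≤ 2 ^ (16 * (p / 1024)) := by
        calc p ^ 16 ≤ (2 ^ (p / 1024)) ^ 16 := Nat.pow_le_pow_left (le_two_pow hp) 16
          _ = 2 ^ (16 * (p / 1024)) := by rw [← pow_mul, mul_comm]
      calc (4 * p ^ 4 * (b + 1) ^ (2 * M + 3)) ^ 4
          = 256 * p ^ 16 * (b + 1) ^ (8 * M + 12) := by ring
        _ ≤ 2 ^ 8 * 2 ^ (16 * (p / 1024)) * (b ^ 2) ^ (8 * M + 12) :=
            Nat.mul_le_mul (Nat.mul_le_mul (by norm_num) h2) (Nat.pow_le_pow_left hbb _)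
        _ = 2 ^ (8 + 16 * (p / 1024)) * b ^ (16 * M + 24) := by
            rw [← pow_add, ← pow_mul]
            congr 2
            ring
        _ ≤ b ^ (8 + 16 * (p / 1024)) * b ^ (16 * M + 24) :=
            Nat.mul_le_mul_right _ (Nat.pow_le_pow_left hb _)
        _ = b ^ (8 + 16 * (p / 1024) + (16 * M + 24)) := by rw [← pow_add]
        _ ≤ b ^ (p - 1) := Nat.pow_le_pow_right (by omega) (by omega)
    exact (Nat.pow_le_pow_iff_left (by norm_num)).1 h1
  have hpf : p.factorial = p * (a * b).factorial := by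
    rw [hab, Nat.mul_factorial_pred (by omega)]
  have hba : b.factorial ^ a = b.factorial ^ (a - 1) * b.factorial := by
    rw [← pow_succ]
    congr 1
    omega
  calc 4 * p ^ 5 * ((b + 1).factorial * ((b + 1) ^ (M + 1) * (b + 1) ^ (M + 1)) *
        a.factorial ^ b)
      = p * (a.factorial ^ b * ((4 * p ^ 4 * (b + 1) ^ (2 * M + 3)) * b.factorial)) := by
        rw [Nat.factorial_succ]
        ring
    _ ≤ p * (a.factorial ^ b * (b.factorial ^ (a - 1) * b.factorial)) :=
        Nat.mul_le_mul_left _ (Nat.mul_le_mul_left _ (Nat.mul_le_mul_right _ key))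
    _ = p * (a.factorial ^ b * b.factorial ^ a) := by rw [hba]
    _ ≤ p * (a * b).factorial := Nat.mul_le_mul_left _ (fact_mul a b)
    _ = p.factorial := hpf.symm

end Pool.Agent.N61.SG
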