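import Mathlib
import Pool.Agent.N61.SG.Elem

/-!
# Powers of prime order of even affine permutations
-/

set_option autoImplicit false

namespace Pool.Agent.N61.SG

open Equiv Finset

variable {p : ℕ} [Fact p.Prime]

/-- nontrivial translations -/
def Transl (z : Perm (ZMod p)) : Prop := ∃ b : ZMod p, b ≠ 0 ∧ ∀ x, z x = x + b

theorem IsAff.pow {h : Perm (ZMod p)} (ha : IsAff h) (i : ℕ) : IsAff (h ^ i) := by
  obtain ⟨a, b, hab⟩ := ha
  induction i with
  | zero => exact ⟨1, 0, fun x => by simp⟩
  | succ i ih =>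
    obtain ⟨c, d, hcd⟩ := ih
    refine ⟨a * c, a * d + b, fun x => ?_⟩
    rw [pow_succ', Perm.mul_apply, hcd, hab]
    ring

theorem Transl.pow {z : Perm (ZMod p)} {b : ZMod p} (h : ∀ x, z x = x + b) (i : ℕ) (x : ZMod p) :
    (z ^ i) x = x + i * b := by
  induction i with
  | zero => simp
  | succ i ih =>
    rw [pow_succ', Perm.mul_apply, ih, h]
    push_cast
    ring

theorem Transl.reps {z : Perm (ZMod p)} (h : Transl z) : Reps z {0} := by
  obtain ⟨b, hb, hz⟩ := h
  intro ω
  refine ⟨(ω / b).val, 0, mem_singleton_self _, ?_⟩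
  rw [Transl.pow hz, ZMod.natCast_zmod_val]
  field_simp
  ring

theorem Transl.transitive {z : Perm (ZMod p)} (h : Transl z) (x y : ZMod p) :
    ∃ i : ℕ, (z ^ i) x = y := by
  obtain ⟨b, hb, hz⟩ := h
  refine ⟨((y - x) / b).val, ?_⟩
  rw [Transl.pow hz, ZMod.natCast_zmod_val]
  field_simp
  ring

/-- the involutions `x ↦ b - x` are odd for `p ≡ 3 mod 4` -/
theorem sign_neg (hp4 : p % 4 = 3) (z : Perm (ZMod p)) (b : ZMod p) (hz : ∀ x, z x = -1 * x + b) :
    Perm.sign z = -1 := by
  have hp : p.Prime := Fact.out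
  have h2 : (2 : ZMod p) ≠ 0 := by
    intro h
    have h3 : ((2 : ℕ) : ZMod p) = 0 := by exact_mod_cast h
    rw [ZMod.natCast_eq_zero_iff] at h3
    have := Nat.le_of_dvd (by norm_num) h3
    omega
  have hz2 : z ^ 2 = 1 := by
    ext x
    rw [pow_two, Perm.mul_apply, hz, hz]
    simp
  rw [Perm.sign_of_pow_two_eq_one hz2]
  have h3 : Fintype.card (Function.fixedPoints z) = 1 := by
    rw [Fintype.card_eq_one_iff]
    refine ⟨⟨b / 2, ?_⟩, ?_⟩
    · change z (b / 2) = b / 2
      rw [hz]
      field_simp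
      ring
    · rintro ⟨x, hx⟩
      have hx' : z x = x := hx
      rw [hz] at hx'
      apply Subtype.ext
      change x = b / 2
      rw [eq_div_iff h2]
      linear_combination -hx'
  rw [h3, ZMod.card]
  obtain ⟨k, hk⟩ : ∃ k, p = 4 * k + 3 := ⟨p / 4, by omega⟩
  have h4 : (p - 1) / 2 = 2 * k + 1 := by omega
  rw [h4, pow_succ, pow_mul]
  simp

/-- every nontrivial even affine permutation has a power which is a translation or a homothety of
large prime order -/
theorem exists_prime_power (hp4 : p % 4 = 3) (R : ℕ)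
    (hR : ∀ q : ℕ, q.Prime → q ∣ p - 1 → q = 2 ∨ R < q) (h : Perm (ZMod p)) (ha : IsAff h)
    (h1 : h ≠ 1) (hs : Perm.sign h = 1) :
    ∃ i : ℕ, Transl (h ^ i) ∨ ∃ (q : ℕ) (α a : ZMod p), R < q ∧ Homot (h ^ i) q α a := by
  have hp : p.Prime := Fact.out
  have hn : orderOf h ≠ 1 := fun h2 => h1 (orderOf_eq_one_iff.1 h2)
  have hn0 : 0 < orderOf h := orderOf_pos h
  obtain ⟨q, hq, hqn⟩ := Nat.exists_prime_and_dvd hn
  set i := orderOf h / q with hi
  have hiq : i * q = orderOf h := Nat.div_mul_cancel hqn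
  have hzq : (h ^ i) ^ q = 1 := by rw [← pow_mul, hiq, pow_orderOf_eq_one]
  have hz1 : h ^ i ≠ 1 := by
    intro h2
    have h3 := orderOf_dvd_of_pow_eq_one h2
    have h4 : i ≠ 0 := by
      rintro h5
      rw [h5, zero_mul] at hiq
      omega
    have h5 := Nat.le_of_dvd (Nat.pos_of_ne_zero h4) h3
    have h6 : i < orderOf h := Nat.div_lt_self hn0 hq.one_lt
    omega
  refine ⟨i, ?_⟩
  obtain ⟨a, b, hab⟩ := ha.pow i
  by_cases ha1 : a = 1
  · left
    refine ⟨b, ?_, fun x => by rw [hab, ha1, one_mul]⟩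
    rintro rfl
    apply hz1
    ext x
    rw [hab, ha1]
    simp
  · right
    have h1a : 1 - a ≠ 0 := sub_ne_zero.2 (Ne.symm ha1)
    set α := b / (1 - a) with hα
    have hz : ∀ x, (h ^ i) x = α + a * (x - α) := by
      intro x
      rw [hab, hα]
      field_simp
      ring
    have hpow : ∀ (j : ℕ) (x : ZMod p), ((h ^ i) ^ j) x = α + a ^ j * (x - α) := by
      intro j
      induction j with
      | zero => intro x; simp
      | succ j ih =>
        intro x
        rw [pow_succ', Perm.mul_apply, ih, hz]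
        ring
    have haq : a ^ q = 1 := by
      have h2 := hpow q (α + 1)
      rw [hzq] at h2
      simp only [Perm.coe_one, id_eq, add_sub_cancel_left, mul_one] at h2
      exact (add_left_cancel h2).symm
    have hord : orderOf a = q := by
      have : Fact q.Prime := ⟨hq⟩
      exact orderOf_eq_prime haq ha1
    have ha0 : a ≠ 0 := by
      rintro rfl
      rw [zero_pow hq.ne_zero] at haq
      exact zero_ne_one haq
    have hqp : q ∣ p - 1 := by
      rw [← hord]
      exact orderOf_dvd_of_pow_eq_one (ZMod.pow_card_sub_one_eq_one ha0)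
    refine ⟨q, α, a, ?_, hq, hord, hz⟩
    rcases hR q hq hqp with h2 | h2
    · exfalso
      subst h2
      have h3 : a = -1 := by
        have h5 : (a - 1) * (a + 1) = 0 := by linear_combination haq
        rcases mul_eq_zero.1 h5 with h4 | h4
        · exact absurd (sub_eq_zero.1 h4) ha1
        · exact eq_neg_of_add_eq_zero_left h4
      rw [h3] at hab
      have h4 := sign_neg hp4 _ b hab
      rw [map_pow, hs, one_pow] at h4
      exact absurd h4 (by decide)
    · exact h2

end Pool.Agent.N61.SG
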