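import Mathlib
import Pool.Agent.N61.SG.Prime
import Pool.Agent.N61.SG.Block
import Pool.Agent.N61.SG.Num

/-!
# The union bound
-/

set_option autoImplicit false

namespace Pool.Agent.N61.SG

open Equiv Finset

variable {p : ℕ} [Fact p.Prime]

/-- translations and homotheties of prime order exceeding `64` -/
def PT (z : Perm (ZMod p)) : Prop :=
  Transl z ∨ ∃ (q : ℕ) (α a : ZMod p), 64 < q ∧ Homot z q α a

theorem PT.reps {z : Perm (ZMod p)} (h : PT z) :
    ∃ D : Finset (ZMod p), D.card ≤ (p - 1) / 64 + 1 ∧ Reps z D := by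
  rcases h with h | ⟨q, α, a, hq, h⟩
  · exact ⟨{0}, by simp, h.reps⟩
  · obtain ⟨m, hm, ⟨D, hD, hR⟩, -⟩ := h.inv
    refine ⟨D, hD.trans ?_, hR⟩
    have : m ≤ (p - 1) / 64 := by
      rw [Nat.le_div_iff_mul_le (by norm_num), ← hm]
      exact Nat.mul_le_mul_left _ hq.le
    omega

theorem PT.aff {z : Perm (ZMod p)} (h : PT z) : IsAff z := by
  rcases h with ⟨b, -, h⟩ | ⟨q, α, a, hq, h⟩
  · exact ⟨1, b, fun x => by rw [h, one_mul]⟩
  · exact ⟨a, α - a * α, fun x => by rw [h.2.2]; ring⟩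

/-- affine structures -/
theorem bad3 {z w : Perm (ZMod p)} (hz : PT z) (hw : PT w) (B : Finset (Perm (ZMod p)))
    (hB : ∀ g ∈ B, ∃ φ : Perm (ZMod p), IsAff (φ⁻¹ * z * φ) ∧ IsAff (φ⁻¹ * (g * w * g⁻¹) * φ)) :
    B.card ≤ p ^ (2 + ((p - 1) / 64 + 1)) * p ^ (2 + ((p - 1) / 64 + 1)) := by
  classical
  set P : Perm (ZMod p) → (ZMod p → ZMod p) → Prop := fun u f =>
    ∃ c : ZMod p × ZMod p, ∀ ω, f (u ω) = c.1 * f ω + c.2 with hP
  have hcount : ∀ u : Perm (ZMod p), PT u →
     (univ.filter (fun f : ZMod p → ZMod p => P u f)).card ≤ p ^ (2 + ((p - 1) / 64 + 1)) := by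
    intro u hu
    obtain ⟨D, hD, hR⟩ := hu.reps
    calc (univ.filter (fun f : ZMod p → ZMod p => P u f)).card
        ≤ ((univ : Finset (ZMod p × ZMod p)).biUnion (fun c =>
            univ.filter (fun f : ZMod p → ZMod p => ∀ ω, f (u ω) =
              (fun x => c.1 * x + c.2) (f ω)))).card := by
          apply card_le_card
          intro f hf
          obtain ⟨c, hc⟩ := (mem_filter.1 hf).2
          exact mem_biUnion.2 ⟨c, mem_univ _, mem_filter.2 ⟨mem_univ _, hc⟩⟩
      _ ≤ ∑ c : ZMod p × ZMod p, (univ.filter (fun f : ZMod p → ZMod p => ∀ ω, f (u ω) =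
              (fun x => c.1 * x + c.2) (f ω))).card := card_biUnion_le
      _ ≤ ∑ c : ZMod p × ZMod p, p ^ ((p - 1) / 64 + 1) := by
          apply sum_le_sum
          intro c _
          refine (card_equivariant u (fun x : ZMod p => c.1 * x + c.2) D hR).trans ?_
          rw [ZMod.card]
          exact Nat.pow_le_pow_right (Nat.Prime.pos Fact.out) hD
      _ = p ^ (2 + ((p - 1) / 64 + 1)) := by
          rw [sum_const, card_univ, Fintype.card_prod, ZMod.card, smul_eq_mul, pow_add _ 2, pow_two]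
  have h1 := card_bad (univ.filter (fun f : ZMod p → ZMod p => Function.Injective f ∧ P z f))
    (univ.filter (fun f : ZMod p → ZMod p => P w f)) 1 1 ?_ B ?_
  · rw [one_mul, mul_one] at h1
    have h2 : univ.filter (fun f : ZMod p → ZMod p => Function.Injective f ∧ P z f) ⊆
        univ.filter (fun f : ZMod p → ZMod p => P z f) := by
      intro f hf
      exact mem_filter.2 ⟨mem_univ _, (mem_filter.1 hf).2.2⟩
    exact h1.trans (Nat.mul_le_mul ((card_le_card h2).trans (hcount z hz)) (hcount w hw))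
  · intro f hf
    have hinj := (mem_filter.1 hf).2.1
    apply le_of_eq
    apply prod_eq_one
    intro c _
    have h5 : Fintype.card {a // f a = c} ≤ 1 := by
      rw [Fintype.card_le_one_iff]
      rintro ⟨a, ha⟩ ⟨b, hb⟩
      exact Subtype.ext (hinj (ha.trans hb.symm))
    rw [Nat.factorial_eq_one]
    exact h5
  · intro g hg
    obtain ⟨φ, ⟨a, b, hab⟩, ⟨c, d, hcd⟩⟩ := hB g hg
    rw [Nat.succ_le_iff, card_pos]
    refine ⟨fun ω => φ⁻¹ ω, ?_⟩
    rw [mem_filter, mem_filter, mem_filter]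
    refine ⟨⟨mem_univ _, φ⁻¹.injective, ⟨(a, b), fun ω => ?_⟩⟩, mem_univ _, ⟨(c, d), fun ω => ?_⟩⟩
    · rw [← hab (φ⁻¹ ω)]
      change φ⁻¹ (z ω) = φ⁻¹ (z (φ (φ⁻¹ ω)))
      congr 2
      exact (Equiv.apply_symm_apply φ ω).symm
    · change φ⁻¹ (g (w ω)) = c * φ⁻¹ (g ω) + d
      rw [← hcd (φ⁻¹ (g ω))]
      change φ⁻¹ (g (w ω)) = φ⁻¹ (g (w (g⁻¹ (φ (φ⁻¹ (g ω))))))
      congr 3
      have e1 : φ (φ⁻¹ (g ω)) = g ω := Equiv.apply_symm_apply φ (g ω)
      rw [e1]
      exact (Equiv.symm_apply_apply g ω).symm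

/-- invariant sets of given size -/
theorem bad1 (hp : 2 ^ 14 ≤ p) {z w : Perm (ZMod p)} {q q' : ℕ} {α a β b : ZMod p} (hq : 64 < q)
    (hq' : 64 < q') (hz : Homot z q α a) (hw : Homot w q' β b) (j : ℕ) (hj : 2 ≤ j)
    (hj' : j + 2 ≤ p) (B : Finset (Perm (ZMod p)))
    (hB : ∀ g ∈ B, ∃ f : ZMod p → Bool, (∀ ω, f (z ω) = f ω) ∧
      (∀ ω, f ((g * w * g⁻¹) ω) = f ω) ∧ (univ.filter (fun ω => f ω = true)).card = j) :
    4 * p ^ 5 * B.card ≤ p.factorial := by
  classical
  obtain ⟨m, hm, -, hc⟩ := hz.inv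
  obtain ⟨m', hm', -, hc'⟩ := hw.inv
  obtain ⟨hc1, hc2⟩ := hc j
  obtain ⟨hc1', hc2'⟩ := hc' j
  set F := univ.filter (fun f : ZMod p → Bool => (∀ ω, f (z ω) = f ω) ∧
    (univ.filter (fun ω => f ω = true)).card = j) with hF
  set G := univ.filter (fun f : ZMod p → Bool => (∀ ω, f (w ω) = f ω) ∧
    (univ.filter (fun ω => f ω = true)).card = j) with hG
  rcases B.eq_empty_or_nonempty with hBe | ⟨g₀, hg₀⟩
  · rw [hBe, card_empty, mul_zero]
    exact Nat.zero_le _
  have hfg : ∀ g ∈ B, ∃ f ∈ F, (fun ω => f (g ω)) ∈ G := by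
    intro g hg
    obtain ⟨f, h1, h2, h3⟩ := hB g hg
    refine ⟨f, mem_filter.2 ⟨mem_univ _, h1, h3⟩, mem_filter.2 ⟨mem_univ _, fun ω => ?_, ?_⟩⟩
    · have h4 := h2 (g ω)
      have e1 : (g * w * g⁻¹) (g ω) = g (w ω) := by
        change g (w (g⁻¹ (g ω))) = g (w ω)
        congr 2
        exact Equiv.symm_apply_apply g ω
      rwa [e1] at h4
    · rw [← h3]
      refine card_bij (fun ω _ => g ω) ?_ ?_ ?_
      · intro ω hω
        exact mem_filter.2 ⟨mem_univ _, (mem_filter.1 hω).2⟩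
      · intro ω _ ω' _ h
        exact g.injective h
      · intro ω hω
        refine ⟨g⁻¹ ω, mem_filter.2 ⟨mem_univ _, ?_⟩, Equiv.apply_symm_apply g ω⟩
        have e1 : g (g⁻¹ ω) = ω := Equiv.apply_symm_apply g ω
        change f (g (g⁻¹ ω)) = true
        rw [e1]
        exact (mem_filter.1 hω).2
  obtain ⟨f₀, hf₀, hf₀'⟩ := hfg g₀ hg₀
  have h1 := card_bad F G (j.factorial * (p - j).factorial) 1 ?_ B ?_
  · rw [one_mul] at h1
    have h2 := num1 hp hq hq' hm hm' hj hj' (hc2 ⟨f₀, hf₀⟩) (hc2' ⟨_, hf₀'⟩)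
    refine le_trans (Nat.mul_le_mul_left _ (h1.trans ?_)) h2
    exact Nat.mul_le_mul_right _ (Nat.mul_le_mul hc1 hc1')
  · intro f hf
    have h3 := (mem_filter.1 hf).2.2
    have h4 : Fintype.card {ω // f ω = true} = j := by
      rw [Fintype.card_subtype, h3]
    have h5 : Fintype.card {ω // f ω = false} = p - j := by
      rw [Fintype.card_subtype, ← h3]
      have h6 := card_filter_add_card_filter_not (s := (univ : Finset (ZMod p)))
        (fun ω => f ω = true)
      rw [card_univ, ZMod.card] at h6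
      have h7 : (univ.filter (fun ω => f ω = false)) = univ.filter (fun ω => ¬ f ω = true) := by
        ext ω
        simp
      rw [h7]
      omega
    rw [Fintype.prod_bool, h4, h5]
  · intro g hg
    rw [Nat.succ_le_iff, card_pos]
    obtain ⟨f, hf, hf'⟩ := hfg g hg
    exact ⟨f, mem_filter.2 ⟨hf, hf'⟩⟩

/-- block systems with given size of the blocks -/
theorem bad2 (hp : 2 ^ 14 ≤ p) {z w : Perm (ZMod p)} (hz : PT z) (hw : PT w) (a b : ℕ) (ha : 2 ≤ a)
    (hb : 2 ≤ b) (hab : a * b = p - 1) (B : Finset (Perm (ZMod p)))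
    (hB : ∀ g ∈ B, ∃ f : ZMod p → Fin (b + 1), Function.Surjective f ∧
      ∏ c, (Fintype.card {x // f x = c}).factorial = a.factorial ^ b ∧
      (∃ σ : Perm (Fin (b + 1)), ∀ ω, f (z ω) = σ (f ω)) ∧
      (∃ σ : Perm (Fin (b + 1)), ∀ ω, f ((g * w * g⁻¹) ω) = σ (f ω))) :
    4 * p ^ 5 * B.card ≤ p.factorial := by
  classical
  set M := (p - 1) / 64 with hM
  set P : Perm (ZMod p) → (ZMod p → Fin (b + 1)) → Prop := fun u f =>
    ∃ σ : Perm (Fin (b + 1)), ∀ ω, f (u ω) = σ (f ω) with hP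
  have hcount : ∀ u : Perm (ZMod p), PT u →
     (univ.filter (fun f : ZMod p → Fin (b + 1) => P u f)).card ≤
       (b + 1).factorial * (b + 1) ^ (M + 1) := by
    intro u hu
    obtain ⟨D, hD, hR⟩ := hu.reps
    calc (univ.filter (fun f : ZMod p → Fin (b + 1) => P u f)).card
        ≤ ((univ : Finset (Perm (Fin (b + 1)))).biUnion (fun σ =>
            univ.filter (fun f : ZMod p → Fin (b + 1) => ∀ ω, f (u ω) = σ (f ω)))).card := by
          apply card_le_card
          intro f hf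
          obtain ⟨c, hc⟩ := (mem_filter.1 hf).2
          exact mem_biUnion.2 ⟨c, mem_univ _, mem_filter.2 ⟨mem_univ _, hc⟩⟩
      _ ≤ ∑ σ : Perm (Fin (b + 1)), (univ.filter (fun f : ZMod p → Fin (b + 1) =>
            ∀ ω, f (u ω) = σ (f ω))).card := card_biUnion_le
      _ ≤ ∑ σ : Perm (Fin (b + 1)), (b + 1) ^ (M + 1) := by
          apply sum_le_sum
          intro c _
          refine (card_equivariant u _ D hR).trans ?_
          rw [Fintype.card_fin]
          exact Nat.pow_le_pow_right (Nat.succ_pos _) hD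
      _ = (b + 1).factorial * (b + 1) ^ (M + 1) := by
          rw [sum_const, card_univ, Fintype.card_perm, Fintype.card_fin, smul_eq_mul]
  have h1 := card_bad (univ.filter (fun f : ZMod p → Fin (b + 1) => P z f ∧
      ∏ c, (Fintype.card {x // f x = c}).factorial = a.factorial ^ b))
    (univ.filter (fun f : ZMod p → Fin (b + 1) => P w f)) (a.factorial ^ b) (b + 1).factorial
    ?_ B ?_
  · have h2 : (b + 1).factorial * B.card ≤ (b + 1).factorial *
        ((b + 1).factorial * ((b + 1) ^ (M + 1) * (b + 1) ^ (M + 1)) * a.factorial ^ b) := by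
      refine h1.trans ?_
      calc _ ≤ ((b + 1).factorial * (b + 1) ^ (M + 1)) * ((b + 1).factorial * (b + 1) ^ (M + 1)) *
            a.factorial ^ b := by
            refine Nat.mul_le_mul_right _ (Nat.mul_le_mul ((card_le_card ?_).trans (hcount z hz))
              (hcount w hw))
            intro f hf
            exact mem_filter.2 ⟨mem_univ _, (mem_filter.1 hf).2.1⟩
        _ = _ := by ring
    have h3 := Nat.le_of_mul_le_mul_left h2 (Nat.factorial_pos _)
    refine le_trans (Nat.mul_le_mul_left _ h3) (num2 hp ?_ ha hb hab)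
    exact Nat.mul_div_le _ _
  · intro f hf
    exact (mem_filter.1 hf).2.2.le
  · intro g hg
    obtain ⟨f, hsurj, hprod, ⟨σ, hσ⟩, ⟨τ, hτ⟩⟩ := hB g hg
    have h2 : (b + 1).factorial = (univ : Finset (Perm (Fin (b + 1)))).card := by
      rw [card_univ, Fintype.card_perm, Fintype.card_fin]
    rw [h2]
    refine card_le_card_of_injOn (fun ρ => fun ω => ρ (f ω)) ?_ ?_
    · intro ρ _
      rw [mem_coe, mem_filter, mem_filter, mem_filter]
      refine ⟨⟨mem_univ _, ⟨ρ * σ * ρ⁻¹, fun ω => ?_⟩, ?_⟩, mem_univ _, ⟨ρ * τ * ρ⁻¹, fun ω => ?_⟩⟩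
      · change ρ (f (z ω)) = ρ (σ (ρ⁻¹ (ρ (f ω))))
        rw [hσ]
        congr 2
        exact (Equiv.symm_apply_apply ρ _).symm
      · rw [← hprod]
        symm
        refine Fintype.prod_equiv ρ _ _ ?_
        intro c
        congr 1
        refine Fintype.card_congr (Equiv.subtypeEquivRight fun x => ?_)
        exact ρ.injective.eq_iff.symm
      · change ρ (f (g (w ω))) = ρ (τ (ρ⁻¹ (ρ (f (g ω)))))
        have h4 := hτ (g ω)
        have e1 : (g * w * g⁻¹) (g ω) = g (w ω) := by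
          change g (w (g⁻¹ (g ω))) = g (w ω)
          congr 2
          exact Equiv.symm_apply_apply g ω
        rw [e1] at h4
        rw [h4]
        congr 2
        exact (Equiv.symm_apply_apply ρ _).symm
    · intro ρ _ ρ' _ h
      apply Equiv.ext
      intro c
      obtain ⟨ω, rfl⟩ := hsurj c
      exact congrFun h ω

end Pool.Agent.N61.SG
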