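import Mathlib
import Pool.Agent.N61.SG.Union

/-!
# Existence of a good conjugating permutation
-/

set_option autoImplicit false

namespace Pool.Agent.N61.SG

open Equiv Finset

variable {p : ℕ} [Fact p.Prime]

/-- the structure of a soluble group generated by two permutations of prime type -/
theorem trichotomy (hp4 : p % 4 = 3) (hp3 : 3 < p) {z w : Perm (ZMod p)} (hz : PT z) (hw : PT w)
    (g : Perm (ZMod p)) (H : Subgroup (Perm (ZMod p))) [Group.IsSolvable H]
    (hH : H = Subgroup.closure {z, g * w * g⁻¹}) :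
    (∃ φ : Perm (ZMod p), IsAff (φ⁻¹ * z * φ) ∧ IsAff (φ⁻¹ * (g * w * g⁻¹) * φ)) ∨
    (∃ j : ℕ, 2 ≤ j ∧ j + 2 ≤ p ∧ (∃ (q : ℕ) (α a : ZMod p), 64 < q ∧ Homot z q α a ∧
        ∃ (q' : ℕ) (β b : ZMod p), 64 < q' ∧ Homot w q' β b) ∧
      ∃ f : ZMod p → Bool, (∀ ω, f (z ω) = f ω) ∧
      (∀ ω, f ((g * w * g⁻¹) ω) = f ω) ∧ (univ.filter (fun ω => f ω = true)).card = j) ∨
    (∃ a b : ℕ, 2 ≤ a ∧ 2 ≤ b ∧ a * b = p - 1 ∧ ∃ f : ZMod p → Fin (b + 1),
      Function.Surjective f ∧
      ∏ c, (Fintype.card {x // f x = c}).factorial = a.factorial ^ b ∧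
      (∃ σ : Perm (Fin (b + 1)), ∀ ω, f (z ω) = σ (f ω)) ∧
      (∃ σ : Perm (Fin (b + 1)), ∀ ω, f ((g * w * g⁻¹) ω) = σ (f ω))) := by
  classical
  have hzH : z ∈ H := by
    rw [hH]
    exact Subgroup.subset_closure (by simp)
  have hwH : g * w * g⁻¹ ∈ H := by
    rw [hH]
    exact Subgroup.subset_closure (by simp)
  by_cases ht : ∀ x y : ZMod p, ∃ h ∈ H, h x = y
  · left
    obtain ⟨φ, hφ⟩ := exists_affine H ht
    exact ⟨φ, hφ z hzH, hφ _ hwH⟩
  right
  -- both are homotheties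
  rcases hz with hz | ⟨q, α, a, hq, hz⟩
  · exfalso
    apply ht
    intro x y
    obtain ⟨i, hi⟩ := hz.transitive x y
    exact ⟨z ^ i, H.pow_mem hzH i, hi⟩
  rcases hw with hw | ⟨q', β, b, hq', hw⟩
  · exfalso
    apply ht
    intro x y
    obtain ⟨i, hi⟩ := hw.transitive (g⁻¹ x) (g⁻¹ y)
    refine ⟨(g * w * g⁻¹) ^ i, H.pow_mem hwH i, ?_⟩
    rw [conj_pow]
    change g ((w ^ i) (g⁻¹ x)) = y
    rw [hi]
    exact Equiv.apply_symm_apply g y
  have hzfix : ∀ x, z x = x ↔ x = α := hz.fix_iff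
  have hwfix : ∀ x, (g * w * g⁻¹) x = x ↔ x = g β := by
    intro x
    have h1 : (g * w * g⁻¹) x = g (w (g⁻¹ x)) := rfl
    rw [h1]
    constructor
    · intro h
      have h2 : w (g⁻¹ x) = g⁻¹ x := by
        apply g.injective
        rw [h]
        exact (Equiv.apply_symm_apply g x).symm
      rw [hw.fix_iff] at h2
      rw [← h2]
      exact (Equiv.apply_symm_apply g x).symm
    · rintro rfl
      have h2 : g⁻¹ (g β) = β := Equiv.symm_apply_apply g β
      rw [h2, hw.fix]
  -- the orbit of a point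
  have orbit : ∀ x y : ZMod p, (¬ ∃ h ∈ H, h x = y) → (z x ≠ x ∨ (g * w * g⁻¹) x ≠ x) →
      (z y ≠ y ∨ (g * w * g⁻¹) y ≠ y) →
      ∃ j : ℕ, 2 ≤ j ∧ j + 2 ≤ p ∧ (∃ (q : ℕ) (α a : ZMod p), 64 < q ∧ Homot z q α a ∧
        ∃ (q' : ℕ) (β b : ZMod p), 64 < q' ∧ Homot w q' β b) ∧ ∃ f : ZMod p → Bool, (∀ ω, f (z ω) = f ω) ∧
      (∀ ω, f ((g * w * g⁻¹) ω) = f ω) ∧ (univ.filter (fun ω => f ω = true)).card = j := by
    intro x y hxy hx hy
    set f : ZMod p → Bool := fun ω => decide (∃ h ∈ H, h x = ω) with hf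
    have hft : ∀ ω, f ω = true ↔ ∃ h ∈ H, h x = ω := fun ω => by
      rw [hf]
      simp only [decide_eq_true_eq]
    have hinv : ∀ u ∈ H, ∀ ω, f (u ω) = f ω := by
      intro u hu ω
      rw [Bool.eq_iff_iff, hft, hft]
      constructor
      · rintro ⟨h, hh, hx⟩
        refine ⟨u⁻¹ * h, H.mul_mem (H.inv_mem hu) hh, ?_⟩
        change u⁻¹ (h x) = ω
        rw [hx]
        exact Equiv.symm_apply_apply u ω
      · rintro ⟨h, hh, rfl⟩
        exact ⟨u * h, H.mul_mem hu hh, rfl⟩
    have two : ∀ v : ZMod p, (z v ≠ v ∨ (g * w * g⁻¹) v ≠ v) →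
        2 ≤ (univ.filter (fun ω => f ω = f v)).card := by
      intro v hv
      have h1 : 1 < (univ.filter (fun ω => f ω = f v)).card := by
        rw [one_lt_card]
        rcases hv with hv | hv
        · exact ⟨z v, mem_filter.2 ⟨mem_univ _, hinv z hzH v⟩, v,
            mem_filter.2 ⟨mem_univ _, rfl⟩, hv⟩
        · exact ⟨(g * w * g⁻¹) v, mem_filter.2 ⟨mem_univ _, hinv _ hwH v⟩, v,
            mem_filter.2 ⟨mem_univ _, rfl⟩, hv⟩
      exact h1
    have hfx : f x = true := (hft x).2 ⟨1, H.one_mem, rfl⟩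
    have hfy : f y = false := by
      rw [← Bool.not_eq_true, hft]
      exact hxy
    have h1 := two x hx
    have h2 := two y hy
    rw [hfx] at h1
    rw [hfy] at h2
    refine ⟨(univ.filter (fun ω => f ω = true)).card, h1, ?_, ⟨q, α, a, hq, hz, q', β, b, hq', hw⟩,
      f, hinv z hzH, hinv _ hwH, rfl⟩
    have h6 := card_filter_add_card_filter_not (s := (univ : Finset (ZMod p)))
        (fun ω => f ω = true)
    rw [card_univ, ZMod.card] at h6
    have h7 : (univ.filter (fun ω => f ω = false)) = univ.filter (fun ω => ¬ f ω = true) := by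
      ext ω
      simp
    rw [h7] at h2
    omega
  by_cases hαβ : α = g β
  · by_cases hoff : TransOff H α
    · right
      obtain ⟨a', b', ha, hb, hab, f, hf1, hf2, hf3⟩ := exists_blocks H α hoff
        (by rw [ZMod.card]; exact hp4) (by rw [ZMod.card]; exact hp3)
      rw [ZMod.card] at hab
      exact ⟨a', b', ha, hb, hab, f, hf1, hf2, hf3 z hzH, hf3 _ hwH⟩
    · left
      have hfix : ∀ h ∈ H, h α = α := by
        have h1 : H ≤ MulAction.stabilizer (Perm (ZMod p)) α := by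
          rw [hH, Subgroup.closure_le]
          rintro u (rfl | hu)
          · exact hz.fix
          · rw [Set.mem_singleton_iff] at hu
            rw [hu]
            exact (hwfix α).2 hαβ
        intro h hh
        exact h1 hh
      have hnt : ¬ ∀ x y : ZMod p, x ≠ α → y ≠ α → ∃ h ∈ H, h x = y := fun h => hoff ⟨hfix, h⟩
      push Not at hnt
      obtain ⟨x, y, hx, hy, hxy⟩ := hnt
      refine orbit x y (fun ⟨h, hh, he⟩ => hxy h hh he) ?_ ?_
      · left
        rw [Ne, hzfix]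
        exact hx
      · left
        rw [Ne, hzfix]
        exact hy
  · left
    push Not at ht
    obtain ⟨x, y, hxy⟩ := ht
    refine orbit x y (fun ⟨h, hh, he⟩ => hxy h hh he) ?_ ?_
    · by_contra hc
      push Not at hc
      exact hαβ (((hzfix x).1 hc.1).symm.trans ((hwfix x).1 hc.2))
    · by_contra hc
      push Not at hc
      exact hαβ (((hzfix y).1 hc.1).symm.trans ((hwfix y).1 hc.2))

/-- the bad permutations for a pair -/
theorem bad (hp : 2 ^ 14 ≤ p) (hp4 : p % 4 = 3) {z w : Perm (ZMod p)} (hz : PT z) (hw : PT w)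
    (B : Finset (Perm (ZMod p)))
    (hB : ∀ g ∈ B, Group.IsSolvable (Subgroup.closure {z, g * w * g⁻¹})) :
    4 * p ^ 4 * B.card ≤ 3 * p.factorial := by
  classical
  have hp0 : 0 < p := by omega
  set P3 : Perm (ZMod p) → Prop := fun g =>
    ∃ φ : Perm (ZMod p), IsAff (φ⁻¹ * z * φ) ∧ IsAff (φ⁻¹ * (g * w * g⁻¹) * φ) with hP3
  set P1 : ℕ → Perm (ZMod p) → Prop := fun j g =>
    ∃ f : ZMod p → Bool, (∀ ω, f (z ω) = f ω) ∧
      (∀ ω, f ((g * w * g⁻¹) ω) = f ω) ∧ (univ.filter (fun ω => f ω = true)).card = j with hP1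
  set P2 : ℕ → Perm (ZMod p) → Prop := fun b g =>
    ∃ f : ZMod p → Fin (b + 1),
      Function.Surjective f ∧
      ∏ c, (Fintype.card {x // f x = c}).factorial = ((p - 1) / b).factorial ^ b ∧
      (∃ σ : Perm (Fin (b + 1)), ∀ ω, f (z ω) = σ (f ω)) ∧
      (∃ σ : Perm (Fin (b + 1)), ∀ ω, f ((g * w * g⁻¹) ω) = σ (f ω)) with hP2
  set B3 := B.filter P3 with hB3
  set B1 : ℕ → Finset (Perm (ZMod p)) := fun j =>
    if 2 ≤ j ∧ j + 2 ≤ p ∧ ∃ (q : ℕ) (α a : ZMod p), 64 < q ∧ Homot z q α a ∧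
      ∃ (q' : ℕ) (β b : ZMod p), 64 < q' ∧ Homot w q' β b then B.filter (P1 j) else ∅ with hB1
  set B2 : ℕ → Finset (Perm (ZMod p)) := fun b =>
    if 2 ≤ b ∧ 2 ≤ (p - 1) / b ∧ ((p - 1) / b) * b = p - 1 then B.filter (P2 b) else ∅ with hB2
  have h3 : 4 * p ^ 4 * B3.card ≤ p.factorial := by
    have h := bad3 hz hw B3 (fun g hg => (mem_filter.1 hg).2)
    refine le_trans (Nat.mul_le_mul_left _ h) (num3 hp ?_)
    exact Nat.mul_div_le _ _
  have h1 : ∀ j, 4 * p ^ 5 * (B1 j).card ≤ p.factorial := by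
    intro j
    rw [hB1]
    simp only
    split_ifs with hc
    · obtain ⟨hj, hj', q, α, a, hq, hz', q', β, b, hq', hw'⟩ := hc
      exact bad1 hp hq hq' hz' hw' j hj hj' _ (fun g hg => (mem_filter.1 hg).2)
    · rw [card_empty, mul_zero]
      exact Nat.zero_le _
  have h2 : ∀ b, 4 * p ^ 5 * (B2 b).card ≤ p.factorial := by
    intro b
    rw [hB2]
    simp only
    split_ifs with hc
    · obtain ⟨hb, ha, hab⟩ := hc
      exact bad2 hp hz hw _ b ha hb hab _ (fun g hg => (mem_filter.1 hg).2)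
    · rw [card_empty, mul_zero]
      exact Nat.zero_le _
  have hsum : ∀ T : ℕ → Finset (Perm (ZMod p)), (∀ j, 4 * p ^ 5 * (T j).card ≤ p.factorial) →
      4 * p ^ 4 * ((range p).biUnion T).card ≤ p.factorial := by
    intro T hT
    have h4 : p * (4 * p ^ 4 * ((range p).biUnion T).card) ≤ p * p.factorial := by
      calc p * (4 * p ^ 4 * ((range p).biUnion T).card)
          = 4 * p ^ 5 * ((range p).biUnion T).card := by ring
        _ ≤ 4 * p ^ 5 * ∑ j ∈ range p, (T j).card := Nat.mul_le_mul_left _ card_biUnion_le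
        _ = ∑ j ∈ range p, 4 * p ^ 5 * (T j).card := mul_sum _ _ _
        _ ≤ ∑ j ∈ range p, p.factorial := sum_le_sum (fun j _ => hT j)
        _ = p * p.factorial := by rw [sum_const, card_range, smul_eq_mul]
    exact Nat.le_of_mul_le_mul_left h4 hp0
  have hcov : B ⊆ B3 ∪ ((range p).biUnion B1 ∪ (range p).biUnion B2) := by
    intro g hg
    have := hB g hg
    rcases trichotomy hp4 (by omega) hz hw g _ rfl with h | ⟨j, hj, hj', hc, h⟩ |
      ⟨a, b, ha, hb, hab, h⟩
    · exact mem_union_left _ (mem_filter.2 ⟨hg, h⟩)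
    · refine mem_union_right _ (mem_union_left _ (mem_biUnion.2 ⟨j, mem_range.2 (by omega), ?_⟩))
      rw [hB1]
      simp only
      rw [if_pos ⟨hj, hj', hc⟩]
      exact mem_filter.2 ⟨hg, h⟩
    · refine mem_union_right _ (mem_union_right _ (mem_biUnion.2 ⟨b, mem_range.2 ?_, ?_⟩))
      · have h5 : 1 * b ≤ a * b := Nat.mul_le_mul_right _ (by omega)
        omega
      · have hdiv : (p - 1) / b = a := by
          rw [← hab]
          exact Nat.mul_div_cancel _ (by omega)
        rw [hB2]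
        simp only
        rw [if_pos ⟨hb, by rw [hdiv]; exact ha, by rw [hdiv]; exact hab⟩]
        refine mem_filter.2 ⟨hg, ?_⟩
        rw [hP2]
        simp only
        rw [hdiv]
        exact h
  have hfin : B.card ≤ B3.card + (((range p).biUnion B1).card + ((range p).biUnion B2).card) :=
    (card_le_card hcov).trans ((card_union_le _ _).trans (Nat.add_le_add_left (card_union_le _ _) _))
  calc 4 * p ^ 4 * B.card ≤ 4 * p ^ 4 *
        (B3.card + (((range p).biUnion B1).card + ((range p).biUnion B2).card)) :=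
        Nat.mul_le_mul_left _ hfin
    _ = 4 * p ^ 4 * B3.card + (4 * p ^ 4 * ((range p).biUnion B1).card +
        4 * p ^ 4 * ((range p).biUnion B2).card) := by ring
    _ ≤ p.factorial + (p.factorial + p.factorial) :=
        Nat.add_le_add h3 (Nat.add_le_add (hsum B1 h1) (hsum B2 h2))
    _ = 3 * p.factorial := by ring

/-- the existence of a good permutation -/
theorem exists_good (hp : 2 ^ 14 ≤ p) (hp4 : p % 4 = 3) :
    ∃ g : Perm (ZMod p), ∀ z w : Perm (ZMod p), PT z → PT w →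
      ¬ Group.IsSolvable (Subgroup.closure {z, g * w * g⁻¹}) := by
  classical
  have hp0 : 0 < p := by omega
  by_contra hc
  push Not at hc
  set A : Finset (Perm (ZMod p)) := univ.filter (fun z => PT z) with hA
  have hAc : A.card ≤ p ^ 2 := by
    have h1 : A.card ≤ (univ : Finset (ZMod p × ZMod p)).card := by
      refine Finset.card_le_card_of_injOn (fun z => (z 0, z 1)) (fun _ _ => mem_univ _) ?_
      intro z hz z' hz' h
      obtain ⟨a, b, hab⟩ := (mem_filter.1 (mem_coe.1 hz)).2.aff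
      obtain ⟨c, d, hcd⟩ := (mem_filter.1 (mem_coe.1 hz')).2.aff
      simp only [Prod.mk.injEq] at h
      obtain ⟨h1, h2⟩ := h
      rw [hab, hcd, mul_zero, mul_zero, zero_add, zero_add] at h1
      rw [hab, hcd, mul_one, mul_one, h1] at h2
      have h3 := add_right_cancel h2
      apply Equiv.ext
      intro x
      rw [hab, hcd, h1, h3]
    refine h1.trans ?_
    rw [card_univ, Fintype.card_prod, ZMod.card, pow_two]
  set T : Perm (ZMod p) × Perm (ZMod p) → Finset (Perm (ZMod p)) := fun r =>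
    univ.filter (fun g => Group.IsSolvable (Subgroup.closure {r.1, g * r.2 * g⁻¹})) with hT
  have hcov : (univ : Finset (Perm (ZMod p))) ⊆ (A ×ˢ A).biUnion T := by
    intro g _
    obtain ⟨z, w, hz, hw, h⟩ := hc g
    exact mem_biUnion.2 ⟨(z, w), mem_product.2 ⟨mem_filter.2 ⟨mem_univ _, hz⟩,
      mem_filter.2 ⟨mem_univ _, hw⟩⟩, mem_filter.2 ⟨mem_univ _, h⟩⟩
  have h1 : p.factorial ≤ ∑ r ∈ A ×ˢ A, (T r).card := by
    have h2 := (card_le_card hcov).trans card_biUnion_le
    rwa [card_univ, Fintype.card_perm, ZMod.card] at h2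
  have h2 : 4 * p ^ 4 * p.factorial ≤ p ^ 4 * (3 * p.factorial) := by
    calc 4 * p ^ 4 * p.factorial ≤ 4 * p ^ 4 * ∑ r ∈ A ×ˢ A, (T r).card :=
          Nat.mul_le_mul_left _ h1
      _ = ∑ r ∈ A ×ˢ A, 4 * p ^ 4 * (T r).card := mul_sum _ _ _
      _ ≤ ∑ r ∈ A ×ˢ A, 3 * p.factorial := by
          apply sum_le_sum
          intro r hr
          obtain ⟨hr1, hr2⟩ := mem_product.1 hr
          exact bad hp hp4 (mem_filter.1 hr1).2 (mem_filter.1 hr2).2 _
            (fun g hg => (mem_filter.1 hg).2)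
      _ = A.card * A.card * (3 * p.factorial) := by
          rw [sum_const, card_product, smul_eq_mul]
      _ ≤ p ^ 2 * p ^ 2 * (3 * p.factorial) :=
          Nat.mul_le_mul_right _ (Nat.mul_le_mul hAc hAc)
      _ = p ^ 4 * (3 * p.factorial) := by ring
  have h3 : 0 < p ^ 4 * p.factorial := by positivity
  have h4 : 4 * (p ^ 4 * p.factorial) ≤ 3 * (p ^ 4 * p.factorial) := by
    calc 4 * (p ^ 4 * p.factorial) = 4 * p ^ 4 * p.factorial := by ring
      _ ≤ _ := h2
      _ = _ := by ring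
  omega

end Pool.Agent.N61.SG
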