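import Mathlib
import Pool.Agent.N61.SG.Good

/-!
# The soluble graph of the alternating group of prime degree
-/

set_option autoImplicit false

namespace Pool.Agent.N61.SG

open Equiv Finset

/-- the soluble radical: the subgroup generated by all soluble normal subgroups (for a finite group
it is the largest soluble normal subgroup) -/
def solRad (G : Type) [Group G] : Subgroup G :=
  sSup {N : Subgroup G | N.Normal ∧ Group.IsSolvable N}

/-- the soluble graph: the vertices are the elements outside the soluble radical, two distinct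
vertices are adjacent when they generate a soluble subgroup -/
def solGraph (G : Type) [Group G] : SimpleGraph {x : G // x ∉ solRad G} where
  Adj x y := x ≠ y ∧ Group.IsSolvable (Subgroup.closure {(x : G), (y : G)})
  symm := ⟨fun x y h => ⟨h.1.symm, by
    rw [Set.pair_comm]
    exact h.2⟩⟩
  loopless := ⟨fun _ h => h.1 rfl⟩

theorem solRad_simple (G : Type) [Group G] [IsSimpleGroup G] (h : ¬ Group.IsSolvable G) :
    solRad G = ⊥ := by
  rw [solRad, sSup_eq_bot]
  rintro N ⟨hN, hs⟩
  rcases hN.eq_bot_or_eq_top with h1 | h1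
  · exact h1
  · exfalso
    apply h
    subst h1
    exact Group.isSolvable_of_surjective (f := (Subgroup.topEquiv : (⊤ : Subgroup G) ≃* G).toMonoidHom)
      Subgroup.topEquiv.surjective

theorem closure_pair_map {G G' : Type} [Group G] [Group G'] (f : G →* G') (a b : G)
    (h : Group.IsSolvable (Subgroup.closure {a, b})) :
    Group.IsSolvable (Subgroup.closure {f a, f b}) := by
  have h1 : Subgroup.closure {f a, f b} = (Subgroup.closure {a, b}).map f := by
    rw [MonoidHom.map_closure, Set.image_pair]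
  rw [h1]
  exact Group.isSolvable_of_surjective
    (f := (f.subgroupMap (Subgroup.closure {a, b}))) (f.subgroupMap_surjective _)

theorem closure_le_solvable {G : Type} [Group G] {H K : Subgroup G} (h : H ≤ K)
    (hK : Group.IsSolvable K) : Group.IsSolvable H :=
  Group.isSolvable_of_isSolvable_injective (f := Subgroup.inclusion h)
    (Subgroup.inclusion_injective h)

theorem walk_three {V : Type} {G : SimpleGraph V} {E : V → V → Prop} (hr : ∀ u, E u u)
    (ha : ∀ u v, G.Adj u v → E u v) {x y : V} (P : G.Walk x y) (h : P.length < 4) :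
    ∃ u v, E x u ∧ E u v ∧ E v y := by
  rcases P with _ | @⟨_, u, _, a1, P⟩
  · exact ⟨_, _, hr _, hr _, hr _⟩
  rcases P with _ | @⟨_, v, _, a2, P⟩
  · exact ⟨_, _, hr _, hr _, ha _ _ a1⟩
  rcases P with _ | @⟨_, w, _, a3, P⟩
  · exact ⟨_, _, hr _, ha _ _ a1, ha _ _ a2⟩
  rcases P with _ | @⟨_, w, _, a4, P⟩
  · exact ⟨_, _, ha _ _ a1, ha _ _ a2, ha _ _ a3⟩
  simp only [SimpleGraph.Walk.length_cons] at h
  omega

variable {p : ℕ} [Fact p.Prime]

theorem main (hp : 2 ^ 14 ≤ p) (hp4 : p % 4 = 3)
    (hR : ∀ q : ℕ, q.Prime → q ∣ p - 1 → q = 2 ∨ 64 < q) :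
    ¬ Group.IsSolvable (alternatingGroup (ZMod p)) ∧ solRad (alternatingGroup (ZMod p)) = ⊥ ∧
      4 ≤ (solGraph (alternatingGroup (ZMod p))).ediam := by
  classical
  have hsimple : IsSimpleGroup (alternatingGroup (ZMod p)) := by
    apply alternatingGroup.isSimpleGroup
    rw [Nat.card_eq_fintype_card, ZMod.card]
    omega
  have hns : ¬ Group.IsSolvable (alternatingGroup (ZMod p)) := by
    intro hs
    have h1 : Group.IsSolvable (Perm (ZMod p)) := by
      refine Group.isSolvable_of_ker_le_range (alternatingGroup (ZMod p)).subtype Perm.sign ?_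
      rw [Subgroup.range_subtype]
      intro u hu
      exact Perm.mem_alternatingGroup.2 hu
    refine Equiv.Perm.not_isSolvable (ZMod p) ?_ h1
    rw [Cardinal.mk_fintype, ZMod.card]
    exact_mod_cast (show 5 ≤ p by omega)
  have hrad := solRad_simple _ hns
  refine ⟨hns, hrad, ?_⟩
  obtain ⟨g, hg⟩ := exists_good hp hp4
  -- the sign of the translation
  have htrp : ∀ (n : ℕ) (x : ZMod p), ((tr : Perm (ZMod p)) ^ n) x = x + n := by
    intro n x
    induction n with
    | zero => simp
    | succ n ih =>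
      rw [pow_succ', Perm.mul_apply, ih, tr_apply]
      push_cast
      ring
  have htr1 : (tr : Perm (ZMod p)) ≠ 1 := by
    intro h
    have h1 := congrArg (fun u : Perm (ZMod p) => u 0) h
    simp only [tr_apply, Perm.coe_one, id_eq, zero_add] at h1
    exact one_ne_zero h1
  have hsign : Perm.sign (tr : Perm (ZMod p)) = 1 := by
    have h1 : (tr : Perm (ZMod p)) ^ p = 1 := by
      ext x
      rw [htrp]
      simp
    have h2 : (Perm.sign (tr : Perm (ZMod p))) ^ p = 1 := by
      rw [← map_pow, h1, map_one]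
    rcases Int.units_eq_one_or (Perm.sign (tr : Perm (ZMod p))) with h3 | h3
    · exact h3
    · rw [h3] at h2
      have h4 : Odd p := Nat.odd_iff.2 (by omega)
      rw [h4.neg_one_pow] at h2
      exact absurd h2 (by decide)
  let x0 : alternatingGroup (ZMod p) := ⟨tr, Perm.mem_alternatingGroup.2 hsign⟩
  let y0 : alternatingGroup (ZMod p) := ⟨g * tr * g⁻¹, Perm.mem_alternatingGroup.2 (by
    rw [map_mul, map_mul, hsign, mul_one, map_inv, mul_inv_cancel])⟩
  have hmem : ∀ u : alternatingGroup (ZMod p), u ∉ solRad (alternatingGroup (ZMod p)) ↔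
      (u : Perm (ZMod p)) ≠ 1 := by
    intro u
    rw [hrad, Subgroup.mem_bot]
    constructor
    · intro h h1
      exact h (Subtype.ext h1)
    · rintro h rfl
      exact h rfl
  let x : {u : alternatingGroup (ZMod p) // u ∉ solRad (alternatingGroup (ZMod p))} :=
    ⟨x0, (hmem x0).2 htr1⟩
  let y : {u : alternatingGroup (ZMod p) // u ∉ solRad (alternatingGroup (ZMod p))} :=
    ⟨y0, (hmem y0).2 (by
      intro h
      apply htr1
      have h1 : g * tr * g⁻¹ = 1 := h
      rwa [mul_inv_eq_one, mul_eq_left] at h1)⟩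
  refine le_trans ?_ (SimpleGraph.edist_le_ediam (u := x) (v := y))
  by_contra hc
  push Not at hc
  obtain ⟨P, hP⟩ := SimpleGraph.exists_walk_of_edist_ne_top (ne_top_of_lt hc)
  rw [← hP] at hc
  have hlen : P.length < 4 := by exact_mod_cast hc
  -- equal or adjacent
  set E : {u : alternatingGroup (ZMod p) // u ∉ solRad (alternatingGroup (ZMod p))} →
    {u : alternatingGroup (ZMod p) // u ∉ solRad (alternatingGroup (ZMod p))} → Prop :=
    fun u v => Group.IsSolvable (Subgroup.closure {((u : alternatingGroup (ZMod p)) : Perm (ZMod p)),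
      ((v : alternatingGroup (ZMod p)) : Perm (ZMod p))}) with hE
  have hEadj : ∀ u v, (solGraph (alternatingGroup (ZMod p))).Adj u v → E u v := by
    intro u v h
    exact closure_pair_map (alternatingGroup (ZMod p)).subtype _ _ h.2
  have hErefl : ∀ u, E u u := by
    intro u
    rw [hE]
    simp only
    rw [Set.pair_eq_singleton, ← Subgroup.zpowers_eq_closure]
    infer_instance
  obtain ⟨u, v, h1, h2, h3⟩ : ∃ u v, E x u ∧ E u v ∧ E v y :=
    walk_three hErefl hEadj P hlen
  set u' : Perm (ZMod p) := ((u : alternatingGroup (ZMod p)) : Perm (ZMod p)) with hu'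
  set v' : Perm (ZMod p) := ((v : alternatingGroup (ZMod p)) : Perm (ZMod p)) with hv'
  have h1' : Group.IsSolvable (Subgroup.closure {(tr : Perm (ZMod p)), u'}) := h1
  have h2' : Group.IsSolvable (Subgroup.closure {u', v'}) := h2
  have h3' : Group.IsSolvable (Subgroup.closure {v', g * tr * g⁻¹}) := h3
  have hu1 : u' ≠ 1 := (hmem _).1 u.2
  have hv1 : v' ≠ 1 := (hmem _).1 v.2
  have hus : Perm.sign u' = 1 := Perm.mem_alternatingGroup.1 u.1.2
  have hvs : Perm.sign v' = 1 := Perm.mem_alternatingGroup.1 v.1.2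
  -- `u` is affine
  have hua : IsAff u' :=
    affine_of_tr (Subgroup.closure {(tr : Perm (ZMod p)), u'})
      (Subgroup.subset_closure (by simp)) u' (Subgroup.subset_closure (by simp))
  -- `g⁻¹ v g` is affine
  set w' : Perm (ZMod p) := g⁻¹ * v' * g with hw'
  have h4 : Group.IsSolvable (Subgroup.closure {w', (tr : Perm (ZMod p))}) := by
    have h5 := closure_pair_map (MulAut.conj g⁻¹).toMonoidHom _ _ h3'
    have e1 : (MulAut.conj g⁻¹).toMonoidHom v' = w' := by
      change g⁻¹ * v' * g⁻¹⁻¹ = w'
      rw [inv_inv]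
    have e2 : (MulAut.conj g⁻¹).toMonoidHom (g * tr * g⁻¹) = tr := by
      change g⁻¹ * (g * tr * g⁻¹) * g⁻¹⁻¹ = tr
      group
    rwa [e1, e2] at h5
  have hwa : IsAff w' :=
    affine_of_tr (Subgroup.closure {w', (tr : Perm (ZMod p))})
      (Subgroup.subset_closure (by simp)) w' (Subgroup.subset_closure (by simp))
  have hw1 : w' ≠ 1 := by
    intro h
    apply hv1
    have h5 : v' = g * w' * g⁻¹ := by rw [hw']; group
    rw [h5, h]
    group
  have hws : Perm.sign w' = 1 := by
    rw [hw', map_mul, map_mul, hvs, mul_one, map_inv, inv_mul_cancel]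
  obtain ⟨i, hi⟩ := exists_prime_power hp4 64 hR u' hua hu1 hus
  obtain ⟨j, hj⟩ := exists_prime_power hp4 64 hR w' hwa hw1 hws
  refine hg (u' ^ i) (w' ^ j) hi hj (closure_le_solvable ?_ h2')
  rw [Subgroup.closure_le]
  have hvw : g * w' ^ j * g⁻¹ = v' ^ j := by
    rw [← conj_pow, hw']
    congr 1
    group
  rintro t (rfl | ht)
  · exact Subgroup.pow_mem _ (Subgroup.subset_closure (by simp)) _
  · rw [Set.mem_singleton_iff] at ht
    rw [ht, hvw]
    exact Subgroup.pow_mem _ (Subgroup.subset_closure (by simp)) _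

/-- infinitely many primes with the required properties -/
theorem exists_prime (N : ℕ) : ∃ p : ℕ, N < p ∧ p.Prime ∧ 2 ^ 14 ≤ p ∧ p % 4 = 3 ∧
    ∀ q : ℕ, q.Prime → q ∣ p - 1 → q = 2 ∨ 64 < q := by
  have : NeZero (Nat.factorial 64) := ⟨(Nat.factorial_pos 64).ne'⟩
  obtain ⟨p, hpN, hp, hpm⟩ := Nat.forall_exists_prime_gt_and_eq_mod
    (q := Nat.factorial 64) (a := -1) isUnit_one.neg (N + 2 ^ 14)
  have hdvd : Nat.factorial 64 ∣ p + 1 := by
    rw [← ZMod.natCast_eq_zero_iff]
    push_cast
    rw [hpm]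
    ring
  refine ⟨p, by omega, hp, by omega, ?_, ?_⟩
  · have h1 : 4 ∣ p + 1 := (Nat.dvd_factorial (by norm_num) (by norm_num)).trans hdvd
    omega
  · intro q hq hqp
    by_contra hc
    push Not at hc
    have h1 : q ∣ p + 1 := (Nat.dvd_factorial hq.pos hc.2).trans hdvd
    have h2 : q ∣ (p + 1) - (p - 1) := Nat.dvd_sub h1 hqp
    have h3 : (p + 1) - (p - 1) = 2 := by omega
    rw [h3] at h2
    exact hc.1 ((Nat.prime_dvd_prime_iff_eq hq Nat.prime_two).1 h2)

end Pool.Agent.N61.SG
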