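import Mathlib
import Pool.Agent.N61.SG.Graph

/-!
# The main theorem for permutations of `Fin p`
-/

set_option autoImplicit false

namespace Pool.Agent.N61.SG

theorem main_fin {p : ℕ} (hpp : p.Prime) (hp : 2 ^ 14 ≤ p) (hp4 : p % 4 = 3)
    (hR : ∀ q : ℕ, q.Prime → q ∣ p - 1 → q = 2 ∨ 64 < q) :
    ¬ Group.IsSolvable (alternatingGroup (Fin p)) ∧ solRad (alternatingGroup (Fin p)) = ⊥ ∧
      4 ≤ (solGraph (alternatingGroup (Fin p))).ediam := by
  obtain ⟨k, rfl⟩ : ∃ k, p = k + 1 := ⟨p - 1, by omega⟩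
  have : Fact (k + 1).Prime := ⟨hpp⟩
  exact main (p := k + 1) hp hp4 hR

theorem card_alt_lt {m n : ℕ} (hm : 2 ≤ m) (h : m < n) :
    Nat.card (alternatingGroup (Fin m)) < Nat.card (alternatingGroup (Fin n)) := by
  have h1 : ∀ k : ℕ, 2 ≤ k → 2 * Nat.card (alternatingGroup (Fin k)) = k.factorial := by
    intro k hk
    have : Nontrivial (Fin k) := Fin.nontrivial_iff_two_le.2 hk
    have := two_mul_nat_card_alternatingGroup (α := Fin k)
    rw [this, Nat.card_perm, Nat.card_fin]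
  have h2 := h1 m hm
  have h3 := h1 n (by omega)
  have h4 : m.factorial < n.factorial := (Nat.factorial_lt (by omega)).2 h
  omega

end Pool.Agent.N61.SG
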